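import Mathlib

/-!
The two charts of the blow-up of `(u, v)` in a ring with the syzygy `q * v = q' * u`.
-/

set_option autoImplicit false

namespace Pool.Agent.Lib.MP_55c1e7_ag.B4

section bl

variable {k K : Type} [Field k] [Field K] [Algebra k K]

/-- Polynomials of degree `≤ n` in `t` with coefficients in `R`. -/
def PolyLE (R : Subalgebra k K) (t : K) (n : ℕ) (f : K) : Prop :=
  ∃ r : ℕ → K, (∀ i, r i ∈ R) ∧ f = ∑ i ∈ Finset.range (n + 1), r i * t ^ i

theorem exists_polyLE {R : Subalgebra k K} {t f : K} (hf : f ∈ R ⊔ Algebra.adjoin k {t}) :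
    ∃ n, PolyLE R t n f := by
  have hle : R ⊔ Algebra.adjoin k {t} ≤
      ((Polynomial.aeval t : Polynomial R →ₐ[R] K).range).restrictScalars k := by
    refine sup_le (fun a ha => ?_) (Algebra.adjoin_le ?_)
    · exact ⟨Polynomial.C ⟨a, ha⟩, by
        show Polynomial.aeval t (Polynomial.C (⟨a, ha⟩ : R)) = a
        rw [Polynomial.aeval_C]
        rfl⟩
    · rintro _ rfl
      exact ⟨Polynomial.X, by
        show Polynomial.aeval _ (Polynomial.X : Polynomial R) = _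
        rw [Polynomial.aeval_X]⟩
  obtain ⟨p, hp⟩ := hle hf
  have hp : Polynomial.aeval t p = f := hp
  refine ⟨p.natDegree, fun i => (p.coeff i : K), fun i => (p.coeff i).2, ?_⟩
  rw [← hp, Polynomial.aeval_eq_sum_range]
  exact Finset.sum_congr rfl fun i _ => by rw [Algebra.smul_def]; rfl

/-- Clearing denominators. -/
theorem PolyLE.clear {R : Subalgebra k K} {u v : K} (hu : u ∈ R) (hv : v ∈ R) (hu0 : u ≠ 0)
    {n : ℕ} {f : K} (hf : PolyLE R (v / u) n f) : u ^ n * f ∈ R := by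
  obtain ⟨r, hr, rfl⟩ := hf
  rw [Finset.mul_sum]
  refine sum_mem fun i hi => ?_
  have hi : i ≤ n := by
    rw [Finset.mem_range] at hi
    omega
  have h1 : u ^ n * (r i * (v / u) ^ i) = r i * (u ^ (n - i) * v ^ i) := by
    rw [div_pow]
    have h2 : u ^ n = u ^ (n - i) * u ^ i := by rw [← pow_add, Nat.sub_add_cancel hi]
    rw [h2]
    field_simp
  rw [h1]
  exact mul_mem (hr i) (mul_mem (pow_mem hu _) (pow_mem hv _))

/-- Regularity of `v` modulo `(u, q)`. -/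
def RegMod (R : Subalgebra k K) (u q v : K) : Prop :=
  ∀ r ∈ R, (∃ a ∈ R, ∃ b ∈ R, v * r = u * a + q * b) → ∃ a ∈ R, ∃ b ∈ R, r = u * a + q * b

theorem RegMod.pow {R : Subalgebra k K} {u q v : K} (h : RegMod R u q v) (hv : v ∈ R) (N : ℕ) :
    ∀ r ∈ R, (∃ a ∈ R, ∃ b ∈ R, v ^ N * r = u * a + q * b) →
      ∃ a ∈ R, ∃ b ∈ R, r = u * a + q * b := by
  induction N with
  | zero =>
    intro r _ hr'
    obtain ⟨a, ha, b, hb, e⟩ := hr'
    exact ⟨a, ha, b, hb, by rw [← e, pow_zero, one_mul]⟩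
  | succ N ih =>
    intro r hr hr'
    obtain ⟨a, ha, b, hb, e⟩ := hr'
    refine ih r hr (h (v ^ N * r) (mul_mem (pow_mem hv N) hr) ⟨a, ha, b, hb, ?_⟩)
    rw [← e, pow_succ]
    ring

variable {R : Subalgebra k K} {u v q : K} (hu : u ∈ R) (hv : v ∈ R) (hu0 : u ≠ 0)
  (hq' : q * v / u ∈ R) (hreg : RegMod R u q v)

include hu hv hu0 hq' hreg

theorem PolyLE.reduce {n N : ℕ} {g c : K} (hg : PolyLE R (v / u) (n + 1) g) (hc : c ∈ R)
    (e : v ^ N * (u ^ (n + 1) * g) = u * c) : PolyLE R (v / u) n g := by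
  obtain ⟨r, hr, hg⟩ := hg
  rw [Finset.sum_range_succ] at hg
  have h1 : PolyLE R (v / u) n (∑ i ∈ Finset.range (n + 1), r i * (v / u) ^ i) := ⟨r, hr, rfl⟩
  have h2 := h1.clear hu hv hu0
  obtain ⟨a, ha, b, hb, e1⟩ := hreg.pow hv (N + (n + 1)) (r (n + 1)) (hr _)
    ⟨c - v ^ N * (u ^ n * ∑ i ∈ Finset.range (n + 1), r i * (v / u) ^ i),
      sub_mem hc (mul_mem (pow_mem hv N) h2), 0, zero_mem _, by
      rw [mul_zero, add_zero, mul_sub, ← e, hg]
      have h3 : u ^ (n + 1) * (r (n + 1) * (v / u) ^ (n + 1)) = v ^ (n + 1) * r (n + 1) := by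
        rw [div_pow]
        field_simp
      rw [mul_add, h3, pow_add v N (n + 1), pow_succ u n]
      ring⟩
  refine ⟨fun i => if i = n then r n + (v * a + q * v / u * b) else r i, fun i => ?_, ?_⟩
  · dsimp only
    split_ifs
    · exact add_mem (hr n) (add_mem (mul_mem hv ha) (mul_mem hq' hb))
    · exact hr i
  · rw [hg, Finset.sum_range_succ, Finset.sum_range_succ]
    dsimp only
    rw [if_pos rfl]
    have h4 : ∑ x ∈ Finset.range n, (if x = n then r n + (v * a + q * v / u * b) else r x) *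
        (v / u) ^ x = ∑ x ∈ Finset.range n, r x * (v / u) ^ x := by
      refine Finset.sum_congr rfl fun x hx => ?_
      rw [Finset.mem_range] at hx
      rw [if_neg hx.ne]
    rw [h4, e1, add_mul, add_assoc]
    congr 2
    rw [pow_succ]
    field_simp

/-- `R[v/u] ∩ R[1/v] = R`. -/
theorem bl_zero {f : K} (hf : f ∈ R ⊔ Algebra.adjoin k {v / u}) {N : ℕ} (hN : v ^ N * f ∈ R) :
    f ∈ R := by
  obtain ⟨n, hn⟩ := exists_polyLE hf
  have h0 : PolyLE R (v / u) 0 f := by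
    induction n with
    | zero => exact hn
    | succ n ih =>
      refine ih (hn.reduce hu hv hu0 hq' hreg (mul_mem (pow_mem hu n) hN) (N := N) ?_)
      rw [pow_succ]
      ring
  obtain ⟨r, hr, rfl⟩ := h0
  rw [zero_add, Finset.sum_range_one, pow_zero, mul_one]
  exact hr 0

/-- `u R[v/u] ∩ R[1/v] = (u, v)`. -/
theorem bl_one {g : K} (hf : g ∈ R ⊔ Algebra.adjoin k {v / u}) {N : ℕ}
    (hN : v ^ N * (u * g) ∈ R) : ∃ a ∈ R, ∃ b ∈ R, u * g = u * a + v * b := by
  obtain ⟨n, hn⟩ := exists_polyLE hf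
  have h0 : PolyLE R (v / u) 1 g := by
    cases n with
    | zero =>
      obtain ⟨r, hr, rfl⟩ := hn
      refine ⟨fun i => if i = 0 then r 0 else 0, fun i => ?_, ?_⟩
      · dsimp only
        split_ifs
        · exact hr 0
        · exact zero_mem _
      · rw [zero_add, Finset.sum_range_one, Finset.sum_range_succ, Finset.sum_range_one]
        dsimp only
        rw [if_pos rfl, if_neg one_ne_zero, zero_mul, add_zero]
    | succ n =>
      induction n with
      | zero => exact hn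
      | succ n ih =>
        refine ih (hn.reduce hu hv hu0 hq' hreg (mul_mem (pow_mem hu n) hN) (N := N) ?_)
        rw [pow_succ, pow_succ]
        ring
  obtain ⟨r, hr, rfl⟩ := h0
  refine ⟨r 0, hr 0, r 1, hr 1, ?_⟩
  rw [Finset.sum_range_succ, Finset.sum_range_one, pow_zero, pow_one]
  field_simp

/-- `u⁻¹ R[v/u] ∩ R[1/v] = (1, q/u)`. -/
theorem bl_neg {f : K} (hf : f * u ∈ R ⊔ Algebra.adjoin k {v / u}) {N : ℕ}
    (hN : v ^ N * f ∈ R) : ∃ a ∈ R, ∃ b ∈ R, f = a + q / u * b := by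
  obtain ⟨n, hn⟩ := exists_polyLE hf
  have h0 : PolyLE R (v / u) 0 (f * u) := by
    induction n with
    | zero => exact hn
    | succ n ih =>
      refine ih (hn.reduce hu hv hu0 hq' hreg (mul_mem (pow_mem hu (n + 1)) hN) (N := N) ?_)
      ring
  obtain ⟨r, hr, e⟩ := h0
  rw [zero_add, Finset.sum_range_one, pow_zero, mul_one] at e
  obtain ⟨a, ha, b, hb, e1⟩ := hreg.pow hv N (r 0) (hr 0) ⟨v ^ N * f, hN, 0, zero_mem _, by
    rw [← e]
    ring⟩
  refine ⟨a, ha, b, hb, ?_⟩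
  rw [e1] at e
  field_simp
  rw [e]
  ring

end bl

section bl2

variable {k K : Type} [Field k] [Field K] [Algebra k K] {R : Subalgebra k K} {u v q : K}

/-- Elements of `R[u/v]` are in `R[1/v]`. -/
theorem exists_pow_mem (hu : u ∈ R) (hv : v ∈ R) (hv0 : v ≠ 0) {f : K}
    (hf : f ∈ R ⊔ Algebra.adjoin k {u / v}) : ∃ N : ℕ, v ^ N * f ∈ R := by
  obtain ⟨n, hn⟩ := exists_polyLE hf
  exact ⟨n, hn.clear hv hu hv0⟩

/-- The four statements on the special chart. -/
theorem bl_inter (hu : u ∈ R) (hv : v ∈ R) (hu0 : u ≠ 0) (hv0 : v ≠ 0) (hq' : q * v / u ∈ R)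
    (hreg : RegMod R u q v) :
    (R ⊔ Algebra.adjoin k {v / u}) ⊓ (R ⊔ Algebra.adjoin k {u / v}) ≤ R := by
  rintro f ⟨h1, h2⟩
  obtain ⟨N, hN⟩ := exists_pow_mem hu hv hv0 h2
  exact bl_zero hu hv hu0 hq' hreg h1 hN

theorem mem_adjoin_div (R : Subalgebra k K) (t : K) : t ∈ R ⊔ Algebra.adjoin k {t} :=
  le_sup_right (α := Subalgebra k K) (Algebra.subset_adjoin rfl)

theorem mem_sup_of_mem (R : Subalgebra k K) (t : K) {a : K} (ha : a ∈ R) :
    a ∈ R ⊔ Algebra.adjoin k {t} := le_sup_left (α := Subalgebra k K) ha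

theorem bl_mem_one (hu : u ∈ R) (hv : v ∈ R) (hu0 : u ≠ 0) (hv0 : v ≠ 0) (hq' : q * v / u ∈ R)
    (hreg : RegMod R u q v) (f : K) :
    (f * u⁻¹ ∈ R ⊔ Algebra.adjoin k {v / u} ∧ f * v⁻¹ ∈ R ⊔ Algebra.adjoin k {u / v}) ↔
      ∃ a ∈ R, ∃ b ∈ R, f = u * a + v * b := by
  constructor
  · rintro ⟨h1, h2⟩
    obtain ⟨N, hN⟩ := exists_pow_mem hu hv hv0 h2
    have e : u * (f * u⁻¹) = f := by field_simp
    obtain ⟨a, ha, b, hb, e1⟩ := bl_one hu hv hu0 hq' hreg h1 (N := N) (by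
      rw [e]
      have e2 : v ^ N * f = v * (v ^ N * (f * v⁻¹)) := by field_simp
      rw [e2]
      exact mul_mem hv hN)
    exact ⟨a, ha, b, hb, by rw [← e1, e]⟩
  · rintro ⟨a, ha, b, hb, rfl⟩
    constructor
    · have e : (u * a + v * b) * u⁻¹ = a + v / u * b := by field_simp
      rw [e]
      exact add_mem (mem_sup_of_mem _ _ ha) (mul_mem (mem_adjoin_div R _) (mem_sup_of_mem _ _ hb))
    · have e : (u * a + v * b) * v⁻¹ = u / v * a + b := by field_simp
      rw [e]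
      exact add_mem (mul_mem (mem_adjoin_div R _) (mem_sup_of_mem _ _ ha)) (mem_sup_of_mem _ _ hb)

theorem bl_mem_neg (hu : u ∈ R) (hv : v ∈ R) (hq : q ∈ R) (hu0 : u ≠ 0) (hv0 : v ≠ 0)
    (hq' : q * v / u ∈ R) (hreg : RegMod R u q v) (f : K) :
    (f * u ∈ R ⊔ Algebra.adjoin k {v / u} ∧ f * v ∈ R ⊔ Algebra.adjoin k {u / v}) ↔
      ∃ a ∈ R, ∃ b ∈ R, f = a + q / u * b := by
  constructor
  · rintro ⟨h1, h2⟩
    obtain ⟨N, hN⟩ := exists_pow_mem hu hv hv0 h2
    exact bl_neg hu hv hu0 hq' hreg h1 (N := N + 1) (by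
      have e2 : v ^ (N + 1) * f = v ^ N * (f * v) := by ring
      rw [e2]
      exact hN)
  · rintro ⟨a, ha, b, hb, rfl⟩
    constructor
    · have e : (a + q / u * b) * u = a * u + q * b := by field_simp
      rw [e]
      exact mem_sup_of_mem _ _ (add_mem (mul_mem ha hu) (mul_mem hq hb))
    · have e : (a + q / u * b) * v = a * v + q * v / u * b := by field_simp
      rw [e]
      exact mem_sup_of_mem _ _ (add_mem (mul_mem ha hv) (mul_mem hq' hb))

end bl2

end Pool.Agent.Lib.MP_55c1e7_ag.B4
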