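import Pool.Agent.Lib.MP_55c1e7_ag.Cech
import Pool.Agent.Lib.MP_55c1e7_ag.CG.Charted
import Pool.Agent.Lib.MP_55c1e7_ag.CK.Defs

/-!
# Covering families of indices
-/

open CategoryTheory CategoryTheory.Limits AlgebraicGeometry
open MP55c1e7.CG Pool.Agent.Lib.MP_55c1e7_ag.CK

namespace BadRed

/-- Index type of the linear systems of `X` and `Y`. -/
abbrev Idx : Type := (Fin 4 × Fin 4 × Fin 4 × Fin 5 × Fin 4) × Fin 3

/-- a family of indices whose charts cover the projective model -/
def Covers {R K : Type} [CommRing R] [Field K] [Algebra R K] {ι κ : Type} (h : ι → K)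
    (I : κ → ι) : Prop :=
  (∀ l, h (I l) ≠ 0) ∧ ∀ j, h j ≠ 0 → Ideal.span (Set.range fun c => chartElt R h j (I c)) = ⊤

end BadRed
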