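import Pool.Agent.Lib.MP_55c1e7_ag.B4.Tab

/-!
# Box B4: the common charts
-/

set_option autoImplicit false

open MP55c1e7.CG Pool.Agent.Lib.MP_55c1e7_ag.CK

namespace BadRed.B4

variable {k K : Type} [Field k] [Field K] [Algebra k K] (P : Pt k K)

/-! ## elementary elements of the chart rings -/

section elem

variable {P} {c : Idz} (hc : Good c)

include hc

lemma fin_x (h : c.1 = 0) : P.x 0 ∈ chart k (hZ P) c := by
  have := mem_x (P := P) hc 1
  rw [h] at this
  have he : lE (P.x 0) (P.w 0) 1 / lE (P.x 0) (P.w 0) 0 = P.x 0 := div_one _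
  rwa [he] at this

lemma fin_y (h : c.2.1 = 0) : P.x 1 ∈ chart k (hZ P) c := by
  have := mem_y (P := P) hc 1
  rw [h] at this
  have he : lE (P.x 1) (P.w 1) 1 / lE (P.x 1) (P.w 1) 0 = P.x 1 := div_one _
  rwa [he] at this

lemma fin_z (h : c.2.2.1 = 0) : P.x 2 ∈ chart k (hZ P) c := by
  have := mem_z (P := P) hc 1
  rw [h] at this
  have he : lE (P.x 2) (P.w 2) 1 / lE (P.x 2) (P.w 2) 0 = P.x 2 := div_one _
  rwa [he] at this

lemma inf_x (h : c.1 = 2) : (P.x 0)⁻¹ ∈ chart k (hZ P) c := by
  have h0 := x_ne P 0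
  have := mem_x (P := P) hc 1
  rw [h] at this
  have he : lE (P.x 0) (P.w 0) 1 / lE (P.x 0) (P.w 0) 2 = (P.x 0)⁻¹ := by
    show P.x 0 / P.x 0 ^ 2 = _
    field_simp
  rwa [he] at this

lemma inf_x' (h : c.1 = 1) : (P.x 0)⁻¹ ∈ chart k (hZ P) c := by
  have h0 := x_ne P 0
  have := mem_x (P := P) hc 0
  rw [h] at this
  have he : lE (P.x 0) (P.w 0) 0 / lE (P.x 0) (P.w 0) 1 = (P.x 0)⁻¹ := by
    show 1 / P.x 0 = _
    field_simp
  rwa [he] at this

lemma fin_x' (h : c.1 = 1) : P.x 0 ∈ chart k (hZ P) c := by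
  have h0 := x_ne P 0
  have := mem_x (P := P) hc 2
  rw [h] at this
  have he : lE (P.x 0) (P.w 0) 2 / lE (P.x 0) (P.w 0) 1 = P.x 0 := by
    show P.x 0 ^ 2 / P.x 0 = _
    field_simp
  rwa [he] at this

lemma inf_y (h : c.2.1 = 2) : (P.x 1)⁻¹ ∈ chart k (hZ P) c := by
  have h0 := x_ne P 1
  have := mem_y (P := P) hc 1
  rw [h] at this
  have he : lE (P.x 1) (P.w 1) 1 / lE (P.x 1) (P.w 1) 2 = (P.x 1)⁻¹ := by
    show P.x 1 / P.x 1 ^ 2 = _
    field_simp
  rwa [he] at this

lemma inf_z (h : c.2.2.1 = 2) : (P.x 2)⁻¹ ∈ chart k (hZ P) c := by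
  have h0 := x_ne P 2
  have := mem_z (P := P) hc 1
  rw [h] at this
  have he : lE (P.x 2) (P.w 2) 1 / lE (P.x 2) (P.w 2) 2 = (P.x 2)⁻¹ := by
    show P.x 2 / P.x 2 ^ 2 = _
    field_simp
  rwa [he] at this

end elem

/-- the ratios of the first list on chart `i` -/
lemma jX_mem (i : Fin 13) (l : Fin 3) :
    lyz (P.x 1) (P.x 2) l / lyz (P.x 1) (P.x 2) (jX i) ∈ chart k (hZ P) (cI i) := by
  have x0 := x_ne P 0
  have y0 := x_ne P 1
  have z0 := x_ne P 2
  have g : Good (cI i) := good_cZ (some i)
  have M := fun {a b : K} (ha : a ∈ chart k (hZ P) (cI i)) (hb : b ∈ chart k (hZ P) (cI i)) =>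
    (chart k (hZ P) (cI i)).mul_mem ha hb
  have key : P.x 1 / lyz (P.x 1) (P.x 2) (jX i) ∈ chart k (hZ P) (cI i) ∧
      P.x 2 / lyz (P.x 1) (P.x 2) (jX i) ∈ chart k (hZ P) (cI i) ∧
      P.x 1 * P.x 2 / lyz (P.x 1) (P.x 2) (jX i) ∈ chart k (hZ P) (cI i) := by
    have one : (1 : K) ∈ chart k (hZ P) (cI i) := (chart k (hZ P) (cI i)).one_mem
    fin_cases i
    · -- 0 : y, ratio z / y = xz / xy
      have h1 := mem_t (P := P) g 3
      have h2 := fin_z (P := P) g rfl
      refine ⟨?_, ?_, ?_⟩
      · convert one using 1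
        exact div_self y0
      · convert h1 using 1
        show P.x 2 / P.x 1 = P.x 0 * P.x 2 / (P.x 0 * P.x 1)
        field_simp
      · convert h2 using 1
        show P.x 1 * P.x 2 / P.x 1 = P.x 2
        field_simp
    · -- 1 : z
      have h1 := mem_t (P := P) g 0
      have h2 := inf_x' (P := P) g rfl
      have h3 := fin_y (P := P) g rfl
      refine ⟨?_, ?_, ?_⟩
      · convert M h1 h2 using 1
        show P.x 1 / P.x 2 = P.x 0 * P.x 1 / P.x 2 * (P.x 0)⁻¹
        field_simp
      · convert one using 1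
        exact div_self z0
      · convert h3 using 1
        show P.x 1 * P.x 2 / P.x 2 = P.x 1
        field_simp
    · -- 2 : z
      have h2 := inf_z (P := P) g rfl
      have h3 := fin_y (P := P) g rfl
      refine ⟨?_, ?_, ?_⟩
      · convert M h3 h2 using 1
        exact div_eq_mul_inv _ _
      · convert one using 1
        exact div_self z0
      · convert h3 using 1
        show P.x 1 * P.x 2 / P.x 2 = P.x 1
        field_simp
    · -- 3 : z
      have h2 := inf_z (P := P) g rfl
      have h3 := fin_y (P := P) g rfl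
      refine ⟨?_, ?_, ?_⟩
      · convert M h3 h2 using 1
        exact div_eq_mul_inv _ _
      · convert one using 1
        exact div_self z0
      · convert h3 using 1
        show P.x 1 * P.x 2 / P.x 2 = P.x 1
        field_simp
    · -- 4 : y
      have h2 := inf_y (P := P) g rfl
      have h3 := fin_z (P := P) g rfl
      refine ⟨?_, ?_, ?_⟩
      · convert one using 1
        exact div_self y0
      · convert M h3 h2 using 1
        exact div_eq_mul_inv _ _
      · convert h3 using 1
        show P.x 1 * P.x 2 / P.x 1 = P.x 2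
        field_simp
    · -- 5 : y
      have h2 := inf_y (P := P) g rfl
      have h3 := fin_z (P := P) g rfl
      refine ⟨?_, ?_, ?_⟩
      · convert one using 1
        exact div_self y0
      · convert M h3 h2 using 1
        exact div_eq_mul_inv _ _
      · convert h3 using 1
        show P.x 1 * P.x 2 / P.x 1 = P.x 2
        field_simp
    · -- 6 : yz
      have h2 := inf_y (P := P) g rfl
      have h3 := inf_z (P := P) g rfl
      refine ⟨?_, ?_, ?_⟩
      · convert h3 using 1
        show P.x 1 / (P.x 1 * P.x 2) = _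
        field_simp
      · convert h2 using 1
        show P.x 2 / (P.x 1 * P.x 2) = _
        field_simp
      · convert one using 1
        exact div_self (mul_ne_zero y0 z0)
    · -- 7 : yz
      have h2 := inf_y (P := P) g rfl
      have h3 := inf_z (P := P) g rfl
      refine ⟨?_, ?_, ?_⟩
      · convert h3 using 1
        show P.x 1 / (P.x 1 * P.x 2) = _
        field_simp
      · convert h2 using 1
        show P.x 2 / (P.x 1 * P.x 2) = _
        field_simp
      · convert one using 1
        exact div_self (mul_ne_zero y0 z0)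
    · -- 8 : y, ratio z / y = xz / xy
      have h1 := mem_t (P := P) g 3
      have h2 := fin_z (P := P) g rfl
      refine ⟨?_, ?_, ?_⟩
      · convert one using 1
        exact div_self y0
      · convert h1 using 1
        show P.x 2 / P.x 1 = P.x 0 * P.x 2 / (P.x 0 * P.x 1)
        field_simp
      · convert h2 using 1
        show P.x 1 * P.x 2 / P.x 1 = P.x 2
        field_simp
    · -- 9 : z, ratio y / z = xy / xz
      have h1 := mem_t (P := P) g 0
      have h2 := fin_y (P := P) g rfl
      refine ⟨?_, ?_, ?_⟩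
      · convert h1 using 1
        show P.x 1 / P.x 2 = P.x 0 * P.x 1 / (P.x 0 * P.x 2)
        field_simp
      · convert one using 1
        exact div_self z0
      · convert h2 using 1
        show P.x 1 * P.x 2 / P.x 2 = P.x 1
        field_simp
    · -- 10 : z
      have h2 := inf_z (P := P) g rfl
      have h3 := fin_y (P := P) g rfl
      refine ⟨?_, ?_, ?_⟩
      · convert M h3 h2 using 1
        exact div_eq_mul_inv _ _
      · convert one using 1
        exact div_self z0
      · convert h3 using 1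
        show P.x 1 * P.x 2 / P.x 2 = P.x 1
        field_simp
    · -- 11 : y
      have h2 := inf_y (P := P) g rfl
      have h3 := fin_z (P := P) g rfl
      refine ⟨?_, ?_, ?_⟩
      · convert one using 1
        exact div_self y0
      · convert M h3 h2 using 1
        exact div_eq_mul_inv _ _
      · convert h3 using 1
        show P.x 1 * P.x 2 / P.x 1 = P.x 2
        field_simp
    · -- 12 : yz
      have h2 := inf_y (P := P) g rfl
      have h3 := inf_z (P := P) g rfl
      refine ⟨?_, ?_, ?_⟩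
      · convert h3 using 1
        show P.x 1 / (P.x 1 * P.x 2) = _
        field_simp
      · convert h2 using 1
        show P.x 2 / (P.x 1 * P.x 2) = _
        field_simp
      · convert one using 1
        exact div_self (mul_ne_zero y0 z0)
  fin_cases l
  · exact key.1
  · exact key.2.1
  · exact key.2.2

/-- the ratios of the second list on chart `i` -/
lemma jY_mem (i : Fin 13) (l : Fin 3) :
    lyz (P.x 0) (P.x 2) l / lyz (P.x 0) (P.x 2) (jY i) ∈ chart k (hZ P) (cI i) := by
  have x0 := x_ne P 0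
  have y0 := x_ne P 1
  have z0 := x_ne P 2
  have g : Good (cI i) := good_cZ (some i)
  have M := fun {a b : K} (ha : a ∈ chart k (hZ P) (cI i)) (hb : b ∈ chart k (hZ P) (cI i)) =>
    (chart k (hZ P) (cI i)).mul_mem ha hb
  have Md : ∀ {a b : K}, a ∈ chart k (hZ P) (cI i) → b⁻¹ ∈ chart k (hZ P) (cI i) →
      a / b ∈ chart k (hZ P) (cI i) := by
    intro a b ha hb
    rw [div_eq_mul_inv]
    exact M ha hb
  have key : P.x 0 / lyz (P.x 0) (P.x 2) (jY i) ∈ chart k (hZ P) (cI i) ∧
      P.x 2 / lyz (P.x 0) (P.x 2) (jY i) ∈ chart k (hZ P) (cI i) ∧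
      P.x 0 * P.x 2 / lyz (P.x 0) (P.x 2) (jY i) ∈ chart k (hZ P) (cI i) := by
    have one : (1 : K) ∈ chart k (hZ P) (cI i) := (chart k (hZ P) (cI i)).one_mem
    -- the three patterns
    have pz : (P.x 2)⁻¹ ∈ chart k (hZ P) (cI i) → P.x 0 ∈ chart k (hZ P) (cI i) →
        (P.x 0 / P.x 2 ∈ chart k (hZ P) (cI i) ∧ P.x 2 / P.x 2 ∈ chart k (hZ P) (cI i) ∧
        P.x 0 * P.x 2 / P.x 2 ∈ chart k (hZ P) (cI i)) := by
      intro h1 h2
      refine ⟨?_, ?_, ?_⟩
      · rw [div_eq_mul_inv]; exact M h2 h1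
      · rw [div_self z0]; exact one
      · rw [mul_div_cancel_right₀ _ z0]; exact h2
    have px : P.x 2 / P.x 0 ∈ chart k (hZ P) (cI i) → P.x 2 ∈ chart k (hZ P) (cI i) →
        (P.x 0 / P.x 0 ∈ chart k (hZ P) (cI i) ∧ P.x 2 / P.x 0 ∈ chart k (hZ P) (cI i) ∧
        P.x 0 * P.x 2 / P.x 0 ∈ chart k (hZ P) (cI i)) := by
      intro h1 h2
      refine ⟨?_, h1, ?_⟩
      · rw [div_self x0]; exact one
      · rw [mul_div_cancel_left₀ _ x0]; exact h2
    have pxz : (P.x 0)⁻¹ ∈ chart k (hZ P) (cI i) → (P.x 2)⁻¹ ∈ chart k (hZ P) (cI i) →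
        (P.x 0 / (P.x 0 * P.x 2) ∈ chart k (hZ P) (cI i) ∧
        P.x 2 / (P.x 0 * P.x 2) ∈ chart k (hZ P) (cI i) ∧
        P.x 0 * P.x 2 / (P.x 0 * P.x 2) ∈ chart k (hZ P) (cI i)) := by
      intro h1 h2
      refine ⟨?_, ?_, ?_⟩
      · convert h2 using 1
        field_simp
      · convert h1 using 1
        field_simp
      · rw [div_self (mul_ne_zero x0 z0)]; exact one
    fin_cases i
    · -- 0 : x, z / x = yz / xy
      have h1 := mem_t (P := P) g 2
      have h2 := fin_z (P := P) g rfl
      refine px ?_ h2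
      convert h1 using 1
      show P.x 2 / P.x 0 = P.x 1 * P.x 2 / (P.x 0 * P.x 1)
      field_simp
    · -- 1 : x
      exact px (Md (fin_z (P := P) g rfl) (inf_x' (P := P) g rfl)) (fin_z (P := P) g rfl)
    · exact pz (inf_z (P := P) g rfl) (fin_x (P := P) g rfl)
    · exact pz (inf_z (P := P) g rfl) (fin_x (P := P) g rfl)
    · -- 4 : x, z / x = yz / xy
      have h1 := mem_t (P := P) g 2
      have h2 := fin_z (P := P) g rfl
      refine px ?_ h2
      convert h1 using 1
      show P.x 2 / P.x 0 = P.x 1 * P.x 2 / (P.x 0 * P.x 1)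
      field_simp
    · -- 5 : z, x / z = xy / yz
      have h1 := mem_t (P := P) g 0
      have h2 := fin_x (P := P) g rfl
      refine ⟨?_, ?_, ?_⟩
      · convert h1 using 1
        show P.x 0 / P.x 2 = P.x 0 * P.x 1 / (P.x 1 * P.x 2)
        field_simp
      · convert one using 1
        exact div_self z0
      · convert h2 using 1
        show P.x 0 * P.x 2 / P.x 2 = P.x 0
        field_simp
    · exact pz (inf_z (P := P) g rfl) (fin_x (P := P) g rfl)
    · exact pz (inf_z (P := P) g rfl) (fin_x (P := P) g rfl)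
    · exact px (Md (fin_z (P := P) g rfl) (inf_x (P := P) g rfl)) (fin_z (P := P) g rfl)
    · exact px (Md (fin_z (P := P) g rfl) (inf_x (P := P) g rfl)) (fin_z (P := P) g rfl)
    · exact pxz (inf_x (P := P) g rfl) (inf_z (P := P) g rfl)
    · exact px (Md (fin_z (P := P) g rfl) (inf_x (P := P) g rfl)) (fin_z (P := P) g rfl)
    · exact pxz (inf_x (P := P) g rfl) (inf_z (P := P) g rfl)
  fin_cases l
  · exact key.1
  · exact key.2.1
  · exact key.2.2

end BadRed.B4
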