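import Pool.Agent.Lib.MP_55c1e7_ag.B4.Gl
import Pool.Agent.Lib.MP_55c1e7_ag.CH.Main

/-!
# Box B4: the charts cover
-/

set_option autoImplicit false
set_option linter.unusedVariables false

open MP55c1e7.CG Pool.Agent.Lib.MP_55c1e7_ag.CK
open Pool.Agent.Lib.MP_55c1e7_ag

namespace BadRed.B4

variable {k K : Type} [Field k] [Field K] [Algebra k K]

theorem chart_le_of {ι : Type} {h : ι → K} {B : Subalgebra k K} {i j : ι} (hi : h i ≠ 0)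
    (hB : CH.chartRing k h i ≤ B) (hij : h i / h j ∈ B) : CH.chartRing k h j ≤ B := by
  refine Algebra.adjoin_le ?_
  rintro _ ⟨l, rfl⟩
  have e : h l / h j = h l / h i * (h i / h j) := by
    field_simp
  change h l / h j ∈ B
  rw [e]
  exact mul_mem (hB (Algebra.subset_adjoin ⟨l, rfl⟩)) hij

theorem valX (h3 : (3 : k) ≠ 0) (P : Pt k K) (B : Subalgebra k K)
    (tot : ∀ a : K, a ∈ B ∨ a⁻¹ ∈ B) : ∃ c, CH.chartRing k (hX P) (IX c) ≤ B := by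
  obtain ⟨c, hc⟩ := CH.X_val P (CH.three_ne h3) B tot
  fin_cases c
  · exact ⟨Sum.inl 0, hc⟩
  · exact ⟨Sum.inr false, hc⟩
  · exact ⟨Sum.inr true, hc⟩
  · refine ⟨Sum.inl 1, chart_le_of (CH.X_ne P _) hc ?_⟩
    have h1 : (P.x 0)⁻¹ ∈ B := hc (CH.X4_cge P (CH.three_ne h3)).2.1
    have e : hX P (CH.IX 3) / hX P (IX (Sum.inl 1)) = (P.x 0)⁻¹ := by
      change (1 * 1 * 1 * P.x 2 * (P.x 0 * P.x 1) * P.x 2) /
        (P.x 0 * 1 * 1 * P.x 2 * (P.x 0 * P.x 1) * P.x 2) = _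
      have e0 := CH.x_ne P 0
      have e1 := CH.x_ne P 1
      have e2 := CH.x_ne P 2
      field_simp
    change hX P (CH.IX 3) / hX P (IX (Sum.inl 1)) ∈ B
    rw [e]
    exact h1
  · exact ⟨Sum.inl 4, hc⟩
  · exact ⟨Sum.inl 5, hc⟩
  · exact ⟨Sum.inl 2, hc⟩
  · exact ⟨Sum.inl 3, hc⟩
  · exact ⟨Sum.inl 8, hc⟩
  · exact ⟨Sum.inl 9, hc⟩
  · exact ⟨Sum.inl 11, hc⟩
  · exact ⟨Sum.inl 10, hc⟩
  · exact ⟨Sum.inl 6, hc⟩
  · exact ⟨Sum.inl 7, hc⟩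
  · exact ⟨Sum.inl 12, hc⟩

theorem valY (h3 : (3 : k) ≠ 0) (P : Pt k K) (B : Subalgebra k K)
    (tot : ∀ a : K, a ∈ B ∨ a⁻¹ ∈ B) : ∃ c, CH.chartRing k (hY P) (IY c) ≤ B := by
  obtain ⟨c, hc⟩ := CH.Y_val P (CH.three_ne h3) B tot
  fin_cases c
  · exact ⟨Sum.inl 0, hc⟩
  · exact ⟨Sum.inr true, hc⟩
  · have h := CH.Y3_cge P (CH.three_ne h3)
    have e0 := CH.x_ne P 0
    have e1 := CH.x_ne P 1
    have e2 := CH.x_ne P 2
    have e3 := CH.x3_ne P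
    have q : P.x 0 * P.x 1 / P.x 2 ∈ B := hc (h.1 0)
    have u : P.x 2 / P.x 0 ∈ B := hc (h.1 1)
    have p : (P.x 0 - 3) * P.x 2 / (P.x 0 * P.x 1) ∈ B := hc (h.1 2)
    have hx : P.x 0 ∈ B := by
      refine CH.mem_eq ?_ (add_mem (mul_mem q p) (CH.three_mem B))
      field_simp
      ring
    rcases CH.two_mem P B tot (CH.three_ne h3) (CH.third_mem B) with h1 | h1
    · refine ⟨Sum.inl 1, chart_le_of (CH.Y_ne P _) hc ?_⟩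
      have e : hY P (CH.IY 2) / hY P (IY (Sum.inl 1)) = (P.x 0)⁻¹ := by
        change (1 * 1 * 1 * P.x 2 * (P.x 0 * P.x 1) * P.x 0) /
          (P.x 0 * 1 * 1 * P.x 2 * (P.x 0 * P.x 1) * P.x 0) = _
        field_simp
      change hY P (CH.IY 2) / hY P (IY (Sum.inl 1)) ∈ B
      rw [e]
      exact h1
    · have v : P.x 0 * P.x 1 / ((P.x 0 - 3) * P.x 2) ∈ B :=
        CH.mem_eq (by field_simp) (mul_mem q h1)
      exact ⟨Sum.inr true, CH.Y2_cle P B (CH.fin3 hx u v) (CH.one_inv_mem B)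
        (fun j => hc (h.2.2 j))⟩
  · exact ⟨Sum.inr false, hc⟩
  · exact ⟨Sum.inl 4, hc⟩
  · exact ⟨Sum.inl 5, hc⟩
  · exact ⟨Sum.inl 8, hc⟩
  · exact ⟨Sum.inl 9, hc⟩
  · exact ⟨Sum.inl 2, hc⟩
  · exact ⟨Sum.inl 3, hc⟩
  · exact ⟨Sum.inl 6, hc⟩
  · exact ⟨Sum.inl 7, hc⟩
  · exact ⟨Sum.inl 10, hc⟩
  · exact ⟨Sum.inl 11, hc⟩
  · exact ⟨Sum.inl 12, hc⟩

theorem coverX (h3 : (3 : k) ≠ 0) (P : Pt k K) (hP : P.Gen) (j : Idz × Fin 3) (hj : hX P j ≠ 0) :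
    Ideal.span (Set.range fun c => chartElt k (hX P) j (IX c)) = ⊤ :=
  CH.cover_of_val (hX P) (CH.X_ne P) IX (valX h3 P) j

theorem coverY (h3 : (3 : k) ≠ 0) (P : Pt k K) (hP : P.Gen) (j : Idz × Fin 3) (hj : hY P j ≠ 0) :
    Ideal.span (Set.range fun c => chartElt k (hY P) j (IY c)) = ⊤ :=
  CH.cover_of_val (hY P) (CH.Y_ne P) IY (valY h3 P) j

end BadRed.B4
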