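import Pool.Agent.Lib.MP_55c1e7_ag.B4.Com

/-!
# Box B4: global generation, partitions
-/

set_option autoImplicit false

open MP55c1e7.CG Pool.Agent.Lib.MP_55c1e7_ag.CK

namespace BadRed.B4

variable {k K : Type} [Field k] [Field K] [Algebra k K] (P : Pt k K)

lemma hX_eq (e : Idz × Fin 3) : hX P e = hZ P e.1 * lyz (P.x 1) (P.x 2) e.2 := rfl

lemma hY_eq (e : Idz × Fin 3) : hY P e = hZ P e.1 * lyz (P.x 0) (P.x 2) e.2 := rfl

lemma good_cI (i : Fin 13) : Good (cI i) := good_cZ (some i)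

lemma good_cS : Good cS := good_cZ none

lemma chX_inl (i : Fin 13) : chart k (hX P) (cI i, jX i) = chart k (hZ P) (cI i) :=
  chart_mul_of_mem (hZ P) (lyz (P.x 1) (P.x 2)) (hX P) (hX_eq P) _ _ (hZ_ne (good_cI i))
    (lyz_ne _ _ (x_ne P 1) (x_ne P 2) _) (jX_mem P i)

lemma chY_inl (i : Fin 13) : chart k (hY P) (cI i, jY i) = chart k (hZ P) (cI i) :=
  chart_mul_of_mem (hZ P) (lyz (P.x 0) (P.x 2)) (hY P) (hY_eq P) _ _ (hZ_ne (good_cI i))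
    (lyz_ne _ _ (x_ne P 0) (x_ne P 2) _) (jY_mem P i)

/-- one new generator -/
lemma sup_adjoin_eq (A : Subalgebra k K) (m : Fin 3 → K) (j : Fin 3) (u : K)
    (hu : ∃ l, m l / m j = u) (hm : ∀ l, m l / m j = u ∨ m l / m j ∈ A) :
    A ⊔ Algebra.adjoin k (Set.range fun l => m l / m j) = A ⊔ Algebra.adjoin k {u} := by
  apply le_antisymm
  · refine sup_le le_sup_left (Algebra.adjoin_le ?_)
    rintro _ ⟨l, rfl⟩
    rcases hm l with h | h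
    · show m l / m j ∈ _
      rw [h]
      exact (le_sup_right : Algebra.adjoin k {u} ≤ _) (Algebra.subset_adjoin rfl)
    · exact (le_sup_left : A ≤ _) h
  · refine sup_le le_sup_left (Algebra.adjoin_le ?_)
    rintro _ rfl
    obtain ⟨l, hl⟩ := hu
    rw [← hl]
    exact (le_sup_right : Algebra.adjoin k (Set.range fun l => m l / m j) ≤ _)
      (Algebra.subset_adjoin ⟨l, rfl⟩)

lemma chX_false : chart k (hX P) (cS, 0) =
    chart k (hZ P) cS ⊔ Algebra.adjoin k {P.x 2 / P.x 1} := by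
  have y0 := x_ne P 1
  have z0 := x_ne P 2
  rw [chart_mul (hZ P) (lyz (P.x 1) (P.x 2)) (hX P) (hX_eq P) _ _ (hZ_ne good_cS)
    (lyz_ne _ _ (x_ne P 1) (x_ne P 2) _)]
  refine sup_adjoin_eq _ _ _ _ ⟨1, rfl⟩ ?_
  intro l
  fin_cases l
  · right
    have : P.x 1 / P.x 1 = 1 := div_self y0
    show P.x 1 / P.x 1 ∈ _
    rw [this]
    exact one_mem _
  · left; rfl
  · right
    show P.x 1 * P.x 2 / P.x 1 ∈ _
    rw [mul_div_cancel_left₀ _ y0]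
    exact fin_z good_cS rfl

lemma chX_true : chart k (hX P) (cS, 1) =
    chart k (hZ P) cS ⊔ Algebra.adjoin k {P.x 1 / P.x 2} := by
  have y0 := x_ne P 1
  have z0 := x_ne P 2
  rw [chart_mul (hZ P) (lyz (P.x 1) (P.x 2)) (hX P) (hX_eq P) _ _ (hZ_ne good_cS)
    (lyz_ne _ _ (x_ne P 1) (x_ne P 2) _)]
  refine sup_adjoin_eq _ _ _ _ ⟨0, rfl⟩ ?_
  intro l
  fin_cases l
  · left; rfl
  · right
    have : P.x 2 / P.x 2 = 1 := div_self z0
    show P.x 2 / P.x 2 ∈ _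
    rw [this]
    exact one_mem _
  · right
    show P.x 1 * P.x 2 / P.x 2 ∈ _
    rw [mul_div_cancel_right₀ _ z0]
    exact fin_y good_cS rfl

lemma chY_false : chart k (hY P) (cS, 1) =
    chart k (hZ P) cS ⊔ Algebra.adjoin k {P.x 0 / P.x 2} := by
  have x0 := x_ne P 0
  have z0 := x_ne P 2
  rw [chart_mul (hZ P) (lyz (P.x 0) (P.x 2)) (hY P) (hY_eq P) _ _ (hZ_ne good_cS)
    (lyz_ne _ _ (x_ne P 0) (x_ne P 2) _)]
  refine sup_adjoin_eq _ _ _ _ ⟨0, rfl⟩ ?_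
  intro l
  fin_cases l
  · left; rfl
  · right
    have : P.x 2 / P.x 2 = 1 := div_self z0
    show P.x 2 / P.x 2 ∈ _
    rw [this]
    exact one_mem _
  · right
    show P.x 0 * P.x 2 / P.x 2 ∈ _
    rw [mul_div_cancel_right₀ _ z0]
    exact fin_x good_cS rfl

lemma chY_true : chart k (hY P) (cS, 0) =
    chart k (hZ P) cS ⊔ Algebra.adjoin k {P.x 2 / P.x 0} := by
  have x0 := x_ne P 0
  have z0 := x_ne P 2
  rw [chart_mul (hZ P) (lyz (P.x 0) (P.x 2)) (hY P) (hY_eq P) _ _ (hZ_ne good_cS)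
    (lyz_ne _ _ (x_ne P 0) (x_ne P 2) _)]
  refine sup_adjoin_eq _ _ _ _ ⟨1, rfl⟩ ?_
  intro l
  fin_cases l
  · right
    have : P.x 0 / P.x 0 = 1 := div_self x0
    show P.x 0 / P.x 0 ∈ _
    rw [this]
    exact one_mem _
  · left; rfl
  · right
    show P.x 0 * P.x 2 / P.x 0 ∈ _
    rw [mul_div_cancel_left₀ _ x0]
    exact fin_z good_cS rfl

/-! ## partitions -/

lemma mem_supl {A B : Subalgebra k K} {a : K} (h : a ∈ A) : a ∈ A ⊔ B :=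
  (le_sup_left : A ≤ A ⊔ B) h

lemma mem_supr {A B : Subalgebra k K} {a : K} (h : a ∈ B) : a ∈ A ⊔ B :=
  (le_sup_right : B ≤ A ⊔ B) h

lemma partX (i : Fin 13) : ∃ a0 ∈ chart k (hZ P) (cI i) ⊔ chart k (hZ P) cS,
    ∃ a1 ∈ chart k (hZ P) (cI i) ⊔ chart k (hZ P) cS,
      a0 * P.x 1 + a1 * P.x 2 = lyz (P.x 1) (P.x 2) (jX i) := by
  generalize jX i = j
  fin_cases j
  · refine ⟨1, one_mem _, 0, zero_mem _, ?_⟩
    rw [one_mul, zero_mul, add_zero]; rfl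
  · refine ⟨0, zero_mem _, 1, one_mem _, ?_⟩
    rw [one_mul, zero_mul, zero_add]; rfl
  · refine ⟨P.x 2, mem_supr (fin_z good_cS rfl), 0, zero_mem _, ?_⟩
    rw [zero_mul, add_zero, mul_comm]; rfl

/-- which of the two coefficients is used -/
def tI : Fin 13 → Bool := ![true, true, false, false, false, false, false, false, true, true,
  false, false, false]

lemma partY_mem (i : Fin 13) :
    (tI i = false → (lyz (P.x 1) (P.x 2) (jX i))⁻¹ ∈ chart k (hZ P) (cI i)) ∧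
    (tI i = true → (lyz (P.x 1) (P.x 2) (jX i))⁻¹ * (P.x 2 / P.x 0) ∈ chart k (hZ P) (cI i)) := by
  have x0 := x_ne P 0
  have y0 := x_ne P 1
  have z0 := x_ne P 2
  have g : Good (cI i) := good_cZ (some i)
  have M : ∀ {a b : K}, a ∈ chart k (hZ P) (cI i) → b ∈ chart k (hZ P) (cI i) →
    a * b ∈ chart k (hZ P) (cI i) := fun ha hb => (chart k (hZ P) (cI i)).mul_mem ha hb
  have Mi : (P.x 1)⁻¹ ∈ chart k (hZ P) (cI i) → (P.x 2)⁻¹ ∈ chart k (hZ P) (cI i) →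
      (P.x 1 * P.x 2)⁻¹ ∈ chart k (hZ P) (cI i) := by
    intro h1 h2
    rw [mul_inv]
    exact M h1 h2
  have Mx : (P.x 0)⁻¹ ∈ chart k (hZ P) (cI i) →
      (P.x 2)⁻¹ * (P.x 2 / P.x 0) ∈ chart k (hZ P) (cI i) := by
    intro h
    have : (P.x 2)⁻¹ * (P.x 2 / P.x 0) = (P.x 0)⁻¹ := by field_simp
    rw [this]
    exact h
  fin_cases i
  · refine ⟨fun h => absurd h (by decide), fun _ => ?_⟩
    have h1 := mem_t (P := P) g 4
    convert h1 using 1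
    show (P.x 1)⁻¹ * (P.x 2 / P.x 0) = P.x 2 / (P.x 0 * P.x 1)
    field_simp
  · exact ⟨fun h => absurd h (by decide), fun _ => Mx (inf_x' g rfl)⟩
  · exact ⟨fun _ => inf_z g rfl, fun h => absurd h (by decide)⟩
  · exact ⟨fun _ => inf_z g rfl, fun h => absurd h (by decide)⟩
  · exact ⟨fun _ => inf_y g rfl, fun h => absurd h (by decide)⟩
  · exact ⟨fun _ => inf_y g rfl, fun h => absurd h (by decide)⟩
  · exact ⟨fun _ => Mi (inf_y g rfl) (inf_z g rfl), fun h => absurd h (by decide)⟩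
  · exact ⟨fun _ => Mi (inf_y g rfl) (inf_z g rfl), fun h => absurd h (by decide)⟩
  · refine ⟨fun h => absurd h (by decide), fun _ => ?_⟩
    have h1 := mem_t (P := P) g 4
    convert h1 using 1
    show (P.x 1)⁻¹ * (P.x 2 / P.x 0) = P.x 2 / (P.x 0 * P.x 1)
    field_simp
  · exact ⟨fun h => absurd h (by decide), fun _ => Mx (inf_x g rfl)⟩
  · exact ⟨fun _ => inf_z g rfl, fun h => absurd h (by decide)⟩
  · exact ⟨fun _ => inf_y g rfl, fun h => absurd h (by decide)⟩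
  · exact ⟨fun _ => Mi (inf_y g rfl) (inf_z g rfl), fun h => absurd h (by decide)⟩

lemma partY (i : Fin 13) : ∃ a0 ∈ chart k (hZ P) (cI i) ⊔ chart k (hZ P) cS,
    ∃ a1 ∈ chart k (hZ P) (cI i) ⊔ chart k (hZ P) cS,
      a0 * 1 + a1 * (P.x 0 / P.x 2) = (lyz (P.x 1) (P.x 2) (jX i))⁻¹ := by
  have x0 := x_ne P 0
  have z0 := x_ne P 2
  have h := partY_mem P i
  cases ht : tI i
  · refine ⟨_, mem_supl (h.1 ht), 0, zero_mem _, ?_⟩
    rw [zero_mul, add_zero, mul_one]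
  · refine ⟨0, zero_mem _, _, mem_supl (h.2 ht), ?_⟩
    rw [zero_mul, zero_add, mul_assoc, div_mul_div_comm, mul_comm (P.x 2) (P.x 0),
      div_self (mul_ne_zero x0 z0), mul_one]

/-! ## global generation -/

/-- the chart of `Z` below a chart of `X` -/
def bel : Fin 13 ⊕ Bool → Option (Fin 13)
  | Sum.inl i => some i
  | Sum.inr _ => none

/-- index in the first list -/
def aT (l : Fin 13 ⊕ Bool) : Fin 4 := if l = Sum.inl 1 then 0 else (cZ (bel l)).1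

/-- index in the third list -/
def zT (l : Fin 13 ⊕ Bool) : Fin 4 := if (cZ (bel l)).2.2.1 = 2 then 1 else 0

/-- the product of list elements which is the section `g * sig` of `Y` -/
noncomputable def EE (l : Fin 13 ⊕ Bool) : K :=
  lE (P.x 0) (P.w 0) (aT l) * lE (P.x 1) (P.w 1) (cZ (bel l)).2.1 *
    lE (P.x 2) (P.w 2) (zT l) * l4 (P.x 0) (P.x 1) (P.x 2) (cZ (bel l)).2.2.2.2 *
    lyz (P.x 0) (P.x 2) (IY l).2

lemma fT (l l' : Fin 13 ⊕ Bool) :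
    lE (P.x 0) (P.w 0) (aT l) / lE (P.x 0) (P.w 0) (aT l') ∈ chart k (hZ P) (cZ (bel l')) := by
  have x0 := x_ne P 0
  by_cases h : l' = Sum.inl 1
  · subst h
    have ha : aT l = 0 ∨ aT l = 2 := by revert l; decide
    have g := good_cI 1
    have e1 : aT (Sum.inl 1) = 0 := rfl
    rw [e1]
    have e2 : lE (P.x 0) (P.w 0) 0 = 1 := rfl
    rw [e2, div_one]
    rcases ha with ha | ha
    · rw [ha, e2]; exact one_mem _
    · rw [ha]
      have h1 : P.x 0 ∈ chart k (hZ P) (cI 1) := fin_x' g rfl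
      exact (chart k (hZ P) (cI 1)).pow_mem h1 2
  · have : aT l' = (cZ (bel l')).1 := if_neg h
    rw [this]
    exact mem_x (good_cZ _) _

lemma fZ (l l' : Fin 13 ⊕ Bool) :
    lE (P.x 2) (P.w 2) (zT l) / lE (P.x 2) (P.w 2) (zT l') ∈ chart k (hZ P) (cZ (bel l')) := by
  have z0 := x_ne P 2
  have hl : zT l = 0 ∨ zT l = 1 := by unfold zT; split_ifs <;> simp
  by_cases h : (cZ (bel l')).2.2.1 = 2
  · have : zT l' = 1 := if_pos h
    rw [this]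
    rcases hl with hl | hl
    · rw [hl]
      have := inf_z (P := P) (good_cZ (bel l')) h
      convert this using 1
      exact one_div _
    · rw [hl]
      have e : lE (P.x 2) (P.w 2) 1 / lE (P.x 2) (P.w 2) 1 = 1 := div_self z0
      rw [e]
      exact one_mem _
  · have h0 : (cZ (bel l')).2.2.1 = 0 := by
      revert h
      revert l'
      decide
    have : zT l' = 0 := if_neg h
    rw [this]
    have e : lE (P.x 2) (P.w 2) 0 = 1 := rfl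
    rw [e, div_one]
    rcases hl with hl | hl
    · rw [hl, e]; exact one_mem _
    · rw [hl]
      exact fin_z (good_cZ (bel l')) h0

lemma EE_ne (l : Fin 13 ⊕ Bool) : EE P l ≠ 0 := by
  have x0 := x_ne P 0
  have y0 := x_ne P 1
  have z0 := x_ne P 2
  have h1 : aT l ≠ 3 := by revert l; decide
  have h2 : zT l ≠ 3 := by revert l; decide
  exact mul_ne_zero (mul_ne_zero (mul_ne_zero (mul_ne_zero (lE_ne _ _ x0 _ h1)
    (lE_ne _ _ y0 _ (good_cZ _).2.1)) (lE_ne _ _ z0 _ h2)) (l4_ne' P _))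
    (lyz_ne _ _ x0 z0 _)

/-- `g * sig = EE` -/
lemma gsig (l : Fin 13 ⊕ Bool) :
    genl (fun i => (lyz (P.x 1) (P.x 2) (jX i))⁻¹) 1 (P.x 0 / P.x 2) l *
      sigl (fun o => hZ P (cZ o)) l ^ 1 = EE P l := by
  have x0 := x_ne P 0
  have y0 := x_ne P 1
  have z0 := x_ne P 2
  have xt := xt_ne P 0
  rw [pow_one]
  rcases l with i | b
  · fin_cases i
    · show (P.x 1)⁻¹ * (1 * 1 * 1 * (P.x 0 * P.x 1) * (P.x 0 * P.x 1)) =
        1 * 1 * 1 * (P.x 0 * P.x 1) * P.x 0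
      field_simp
    · show (P.x 2)⁻¹ * (P.x 0 * 1 * 1 * P.x 2 * (P.x 0 * P.x 1)) =
        1 * 1 * 1 * (P.x 0 * P.x 1) * P.x 0
      field_simp
    · show (P.x 2)⁻¹ * (1 * 1 * P.x 2 ^ 2 * P.x 2 * ((P.x 0 - 3) * P.x 2)) =
        1 * 1 * P.x 2 * ((P.x 0 - 3) * P.x 2) * P.x 2
      field_simp
    · show (P.x 2)⁻¹ * (1 * 1 * P.x 2 ^ 2 * P.x 2 * (P.x 0 * P.x 1 * P.x 2)) =
        1 * 1 * P.x 2 * (P.x 0 * P.x 1 * P.x 2) * P.x 2
      field_simp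
    · show (P.x 1)⁻¹ * (1 * P.x 1 ^ 2 * 1 * (P.x 0 * P.x 1) * (P.x 0 * P.x 1)) =
        1 * P.x 1 ^ 2 * 1 * (P.x 0 * P.x 1) * P.x 0
      field_simp
    · show (P.x 1)⁻¹ * (1 * P.x 1 ^ 2 * 1 * (P.x 1 * P.x 2) * ((P.x 0 - 3) * P.x 1 * P.x 2)) =
        1 * P.x 1 ^ 2 * 1 * ((P.x 0 - 3) * P.x 1 * P.x 2) * P.x 2
      field_simp
    · show (P.x 1 * P.x 2)⁻¹ *
          (1 * P.x 1 ^ 2 * P.x 2 ^ 2 * (P.x 1 * P.x 2) * ((P.x 0 - 3) * P.x 1 * P.x 2)) =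
        1 * P.x 1 ^ 2 * P.x 2 * ((P.x 0 - 3) * P.x 1 * P.x 2) * P.x 2
      field_simp
    · show (P.x 1 * P.x 2)⁻¹ *
          (1 * P.x 1 ^ 2 * P.x 2 ^ 2 * (P.x 1 * P.x 2) * (P.x 0 * P.x 1 * P.x 2)) =
        1 * P.x 1 ^ 2 * P.x 2 * (P.x 0 * P.x 1 * P.x 2) * P.x 2
      field_simp
    · show (P.x 1)⁻¹ * (P.x 0 ^ 2 * 1 * 1 * (P.x 0 * P.x 1) * (P.x 0 * P.x 1)) =
        P.x 0 ^ 2 * 1 * 1 * (P.x 0 * P.x 1) * P.x 0
      field_simp
    · show (P.x 2)⁻¹ * (P.x 0 ^ 2 * 1 * 1 * (P.x 0 * P.x 2) * ((P.x 0 - 3) * P.x 2)) =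
        P.x 0 ^ 2 * 1 * 1 * ((P.x 0 - 3) * P.x 2) * P.x 0
      field_simp
    · show (P.x 2)⁻¹ * (P.x 0 ^ 2 * 1 * P.x 2 ^ 2 * (P.x 0 * P.x 2) * ((P.x 0 - 3) * P.x 2)) =
        P.x 0 ^ 2 * 1 * P.x 2 * ((P.x 0 - 3) * P.x 2) * (P.x 0 * P.x 2)
      field_simp
    · show (P.x 1)⁻¹ * (P.x 0 ^ 2 * P.x 1 ^ 2 * 1 * (P.x 0 * P.x 1) * (P.x 0 * P.x 1)) =
        P.x 0 ^ 2 * P.x 1 ^ 2 * 1 * (P.x 0 * P.x 1) * P.x 0
      field_simp
    · show (P.x 1 * P.x 2)⁻¹ * (P.x 0 ^ 2 * P.x 1 ^ 2 * P.x 2 ^ 2 * (P.x 0 * P.x 1 * P.x 2) *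
          (P.x 0 * P.x 1 * P.x 2)) =
        P.x 0 ^ 2 * P.x 1 ^ 2 * P.x 2 * (P.x 0 * P.x 1 * P.x 2) * (P.x 0 * P.x 2)
      field_simp
  · cases b
    · show 1 * (1 * 1 * 1 * P.x 2 * ((P.x 0 - 3) * P.x 2)) =
        1 * 1 * 1 * ((P.x 0 - 3) * P.x 2) * P.x 2
      ring
    · show P.x 0 / P.x 2 * (1 * 1 * 1 * P.x 2 * ((P.x 0 - 3) * P.x 2)) =
        1 * 1 * 1 * ((P.x 0 - 3) * P.x 2) * P.x 0
      field_simp

lemma IY_fst (l : Fin 13 ⊕ Bool) : (IY l).1 = cZ (bel l) := by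
  rcases l with i | b
  · rfl
  · cases b <;> rfl

lemma IX_fst (l : Fin 13 ⊕ Bool) : (IX l).1 = cZ (bel l) := by
  rcases l with i | b
  · rfl
  · cases b <;> rfl

/-- the chart of `Z` is contained in the chart of `Y` -/
lemma leY (l : Fin 13 ⊕ Bool) : chart k (hZ P) (cZ (bel l)) ≤ chart k (hY P) (IY l) := by
  have : IY l = ((IY l).1, (IY l).2) := rfl
  rw [this, chart_mul (hZ P) (lyz (P.x 0) (P.x 2)) (hY P) (hY_eq P) _ _
    (by rw [IY_fst]; exact hZ_ne (good_cZ _)) (lyz_ne _ _ (x_ne P 0) (x_ne P 2) _), IY_fst]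
  exact le_sup_left

lemma ratY (l : Fin 13 ⊕ Bool) (j : Fin 3) :
    lyz (P.x 0) (P.x 2) j / lyz (P.x 0) (P.x 2) (IY l).2 ∈ chart k (hY P) (IY l) := by
  have : IY l = ((IY l).1, (IY l).2) := rfl
  rw [this, chart_mul (hZ P) (lyz (P.x 0) (P.x 2)) (hY P) (hY_eq P) _ _
    (by rw [IY_fst]; exact hZ_ne (good_cZ _)) (lyz_ne _ _ (x_ne P 0) (x_ne P 2) _)]
  exact mem_supr (Algebra.subset_adjoin ⟨j, rfl⟩)

lemma ratX (l : Fin 13 ⊕ Bool) (j : Fin 3) :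
    lyz (P.x 1) (P.x 2) j / lyz (P.x 1) (P.x 2) (IX l).2 ∈ chart k (hX P) (IX l) := by
  have : IX l = ((IX l).1, (IX l).2) := rfl
  rw [this, chart_mul (hZ P) (lyz (P.x 1) (P.x 2)) (hX P) (hX_eq P) _ _
    (by rw [IX_fst]; exact hZ_ne (good_cZ _)) (lyz_ne _ _ (x_ne P 1) (x_ne P 2) _)]
  exact mem_supr (Algebra.subset_adjoin ⟨j, rfl⟩)

lemma glY (l l' : Fin 13 ⊕ Bool) : EE P l / EE P l' ∈ chart k (hY P) (IY l') := by
  have : EE P l / EE P l' =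
      (lE (P.x 0) (P.w 0) (aT l) / lE (P.x 0) (P.w 0) (aT l')) *
      (lE (P.x 1) (P.w 1) (cZ (bel l)).2.1 / lE (P.x 1) (P.w 1) (cZ (bel l')).2.1) *
      (lE (P.x 2) (P.w 2) (zT l) / lE (P.x 2) (P.w 2) (zT l')) *
      (l4 (P.x 0) (P.x 1) (P.x 2) (cZ (bel l)).2.2.2.2 /
        l4 (P.x 0) (P.x 1) (P.x 2) (cZ (bel l')).2.2.2.2) *
      (lyz (P.x 0) (P.x 2) (IY l).2 / lyz (P.x 0) (P.x 2) (IY l').2) := by
    unfold EE
    simp only [mul_div_mul_comm]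
  rw [this]
  refine mul_mem (mul_mem (mul_mem (mul_mem ?_ ?_) ?_) ?_) (ratY P l' _)
  · exact leY P l' (fT P l l')
  · exact leY P l' (mem_y (good_cZ _) _)
  · exact leY P l' (fZ P l l')
  · exact leY P l' (mem_l (good_cZ _) _)

lemma genX (l : Fin 13 ⊕ Bool) :
    genl (fun i => lyz (P.x 1) (P.x 2) (jX i)) (P.x 1) (P.x 2) l =
      lyz (P.x 1) (P.x 2) (IX l).2 := by
  rcases l with i | b
  · rfl
  · cases b <;> rfl

end BadRed.B4
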