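import Pool.Agent.Lib.MP_55c1e7_ag.B4.Com
import Pool.Agent.Lib.MP_55c1e7_ag.B4.Bl
import Pool.Agent.Lib.MP_55c1e7_ag.CK.Ed

/-!
# Box B4: the special chart, regularity of `z` modulo `(y, q)` and modulo `(x, q)`
-/

set_option autoImplicit false

open MP55c1e7.CG Pool.Agent.Lib.MP_55c1e7_ag.CK Pool.Agent.Lib.MP_55c1e7_ag.B4 Polynomial

namespace BadRed.B4

section abs

theorem clear_linear {T : Type} [CommRing T] (a b : T) (G : T[X]) :
    ∃ (N : ℕ) (H : T[X]) (c : T), C a ^ N * G = (C a * X + C b) * H + C c := by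
  induction G using Polynomial.induction_on with
  | C t => exact ⟨0, 0, t, by rw [pow_zero, one_mul, mul_zero, zero_add]⟩
  | add G1 G2 h1 h2 =>
    obtain ⟨N1, H1, c1, e1⟩ := h1
    obtain ⟨N2, H2, c2, e2⟩ := h2
    refine ⟨N1 + N2, C a ^ N2 * H1 + C a ^ N1 * H2, a ^ N2 * c1 + a ^ N1 * c2, ?_⟩
    rw [map_add, map_mul, map_mul, map_pow, map_pow]
    linear_combination C a ^ N2 * e1 + C a ^ N1 * e2
  | monomial n t h =>
    obtain ⟨N, H, c, e⟩ := h
    refine ⟨N + 1, C a * X * H + C c, -(b * c), ?_⟩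
    rw [map_neg, map_mul]
    linear_combination C a * X * e

theorem dvd_of_eval {T K : Type} [CommRing T] [IsDomain T] [UniqueFactorizationMonoid T] [Field K]
    (f : T →+* K) (hf : Function.Injective f) (a b : T) (ha : a ≠ 0) (hab : IsRelPrime a b)
    (z : K) (hz : f a * z + f b = 0) (G : T[X]) (hG : G.eval₂ f z = 0) :
    C a * X + C b ∣ G := by
  obtain ⟨N, H, c, e⟩ := clear_linear a b G
  have h1 := congrArg (Polynomial.eval₂RingHom f z) e
  rw [map_mul, map_add, map_mul] at h1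
  simp only [coe_eval₂RingHom, map_add, map_mul, map_pow, eval₂_C, eval₂_X, hG, hz, mul_zero,
    zero_mul, zero_add] at h1
  have h2 : c = 0 := hf (by rw [← h1, map_zero])
  rw [h2, map_zero, add_zero] at e
  have h3 : Prime (C a * X + C b : T[X]) := (irreducible_C_mul_X_add_C ha hab).prime
  rcases h3.dvd_or_dvd ⟨H, e⟩ with h4 | h4
  · exfalso
    have h5 : C a ^ N ≠ (0 : T[X]) := pow_ne_zero _ (C_ne_zero.mpr ha)
    have h6 := Polynomial.natDegree_le_of_dvd h4 h5
    rw [← map_pow, natDegree_C, natDegree_linear ha] at h6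
    omega
  · exact h4

theorem reg_poly {T : Type} [CommRing T] (I : Ideal T) (r : T[X])
    (h : X * r ∈ Ideal.map (C : T →+* T[X]) I) : r ∈ Ideal.map (C : T →+* T[X]) I := by
  rw [Ideal.mem_map_C_iff] at h ⊢
  intro n
  have := h (n + 1)
  rwa [coeff_X_mul] at this

theorem mem_map_pair {T : Type} [CommRing T] (U Q : T) (r : T[X]) :
    r ∈ Ideal.map (C : T →+* T[X]) (Ideal.span {U, Q}) ↔ ∃ a b, a * C U + b * C Q = r := by
  rw [Ideal.map_span, Set.image_pair, Ideal.mem_span_pair]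

theorem exists_coeff {A K : Type} [CommRing A] [CommRing K] [Algebra A K] (w : Fin 3 → K)
    (hw : ∀ i, ∃ a : A, w i ^ 2 = algebraMap A K a) (f : K)
    (hf : f ∈ Algebra.adjoin A (Set.range w)) :
    ∃ c : Finset (Fin 3) → A, ∑ S, c S • ∏ i ∈ S, w i = f := by
  classical
  have key : ∀ m ∈ Submodule.span A (Set.range fun S : Finset (Fin 3) => ∏ i ∈ S, w i),
      f * m ∈ Submodule.span A (Set.range fun S : Finset (Fin 3) => ∏ i ∈ S, w i) := by
    induction hf using Algebra.adjoin_induction with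
    | mem x hx =>
      obtain ⟨i, rfl⟩ := hx
      intro m hm
      induction hm using Submodule.span_induction with
      | mem y hy =>
        obtain ⟨S, rfl⟩ := hy
        by_cases hi : i ∈ S
        · obtain ⟨a, ha⟩ := hw i
          have h1 : w i * ∏ i ∈ S, w i = a • ∏ i ∈ S.erase i, w i := by
            rw [← Finset.mul_prod_erase S _ hi, Algebra.smul_def, ← ha]
            ring
          show w i * ∏ i ∈ S, w i ∈ _
          rw [h1]
          exact Submodule.smul_mem _ _ (Submodule.subset_span ⟨S.erase i, rfl⟩)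
        · have h1 : w i * ∏ i ∈ S, w i = ∏ i ∈ insert i S, w i := by
            rw [Finset.prod_insert hi]
          show w i * ∏ i ∈ S, w i ∈ _
          rw [h1]
          exact Submodule.subset_span ⟨insert i S, rfl⟩
      | zero => rw [mul_zero]; exact Submodule.zero_mem _
      | add x y _ _ hx hy => rw [mul_add]; exact Submodule.add_mem _ hx hy
      | smul a x _ hx => rw [mul_smul_comm]; exact Submodule.smul_mem _ _ hx
    | algebraMap r =>
      intro m hm
      rw [← Algebra.smul_def]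
      exact Submodule.smul_mem _ _ hm
    | add x y _ _ hx hy =>
      intro m hm
      rw [add_mul]
      exact Submodule.add_mem _ (hx m hm) (hy m hm)
    | mul x y _ _ hx hy =>
      intro m hm
      rw [mul_assoc]
      exact hx _ (hy m hm)
  have h1 := key 1 (Submodule.subset_span ⟨∅, Finset.prod_empty⟩)
  rw [mul_one] at h1
  exact (Submodule.mem_span_range_iff_exists_fun A).mp h1

end abs

variable {k K : Type} [Field k] [Field K] [Algebra k K]

/-- `p = x y / ((x - 3) z)` -/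
noncomputable def pp (P : Pt k K) : K := P.x 0 * P.x 1 / ((P.x 0 - 3) * P.x 2)

/-- the coordinates `x, y, p` -/
noncomputable def al (P : Pt k K) : Fin 3 → K := ![P.x 0, P.x 1, pp P]

/-- evaluation at `x, y, p` -/
noncomputable def evT (P : Pt k K) : MvPolynomial (Fin 3) k →ₐ[k] K := MvPolynomial.aeval (al P)

/-- evaluation at `x, y, p` and `z` -/
noncomputable def ev (P : Pt k K) : (MvPolynomial (Fin 3) k)[X] →+* K :=
  eval₂RingHom (evT P).toRingHom (P.x 2)

lemma ev_C (P : Pt k K) (t : MvPolynomial (Fin 3) k) : ev P (C t) = evT P t := eval₂_C _ _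

lemma ev_X (P : Pt k K) : ev P X = P.x 2 := eval₂_X _ _

lemma evT_0 (P : Pt k K) : evT P (MvPolynomial.X 0) = P.x 0 := MvPolynomial.aeval_X _ _

lemma evT_1 (P : Pt k K) : evT P (MvPolynomial.X 1) = P.x 1 := MvPolynomial.aeval_X _ _

lemma evT_2 (P : Pt k K) : evT P (MvPolynomial.X 2) = pp P := MvPolynomial.aeval_X _ _

/-- the polynomial `(x - 3) p` -/
noncomputable def Qp (k : Type) [Field k] : MvPolynomial (Fin 3) k :=
  (MvPolynomial.X 0 - 3) * MvPolynomial.X 2

/-- the polynomial `x y` -/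
noncomputable def Xy (k : Type) [Field k] : MvPolynomial (Fin 3) k :=
  MvPolynomial.X 0 * MvPolynomial.X 1

lemma evT_Qp (P : Pt k K) : evT P (Qp k) = P.x 0 * P.x 1 / P.x 2 := by
  have h0 := xt_ne P 0
  have z0 := x_ne P 2
  rw [Qp, map_mul, map_sub, map_ofNat, evT_0, evT_2, pp]
  field_simp

lemma evT_Xy (P : Pt k K) : evT P (Xy k) = P.x 0 * P.x 1 := by
  rw [Xy, map_mul, evT_0, evT_1]

lemma isRelPrime_Qp (h3 : (3 : k) ≠ 0) : IsRelPrime (Qp k) (-Xy k) := by
  have key : ∀ i : Fin 3, i ≠ 2 → ¬ MvPolynomial.X i ∣ Qp k := by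
    rintro i hi ⟨c, hc⟩
    have h1 := congrArg (MvPolynomial.eval (fun j : Fin 3 => if j = 2 then (1 : k) else 0)) hc
    rw [Qp] at h1
    simp [hi, h3] at h1
  rw [IsRelPrime.neg_right_iff, Xy]
  refine IsRelPrime.mul_right ?_ ?_
  · exact ((MvPolynomial.X_prime (R := k) (i := (0 : Fin 3))).irreducible.isRelPrime_iff_not_dvd.mpr
      (key 0 (by decide))).symm
  · exact ((MvPolynomial.X_prime (R := k) (i := (1 : Fin 3))).irreducible.isRelPrime_iff_not_dvd.mpr
      (key 1 (by decide))).symm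

lemma Qp_ne : Qp k ≠ 0 := by
  intro h
  have h1 := congrArg (MvPolynomial.eval (fun j : Fin 3 => if j = 2 then (1 : k) else 4)) h
  rw [Qp] at h1
  simp at h1
  have h2 : (1 : k) = 4 - 3 := by norm_num
  exact one_ne_zero (h2.trans h1)

lemma x_memF (P : Pt k K) (i : Fin 3) : P.x i ∈ P.F :=
  IntermediateField.subset_adjoin k _ (Set.mem_range_self i)

lemma pp_memF (P : Pt k K) : pp P ∈ P.F := by
  have h3 : (3 : K) ∈ P.F := ofNat_mem P.F 3
  exact div_mem (mul_mem (x_memF P 0) (x_memF P 1)) (mul_mem (sub_mem (x_memF P 0) h3) (x_memF P 2))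

lemma evT_memF (P : Pt k K) (t : MvPolynomial (Fin 3) k) : evT P t ∈ P.F := by
  have h1 : evT P t ∈ Algebra.adjoin k (Set.range (al P)) := by
    rw [Algebra.adjoin_range_eq_range_aeval]
    exact ⟨t, rfl⟩
  have h2 : Algebra.adjoin k (Set.range (al P)) ≤ P.F.toSubalgebra := by
    rw [Algebra.adjoin_le_iff]
    rintro _ ⟨i, rfl⟩
    fin_cases i
    · exact x_memF P 0
    · exact x_memF P 1
    · exact pp_memF P
  exact h2 h1

lemma ev_memF (P : Pt k K) (G : (MvPolynomial (Fin 3) k)[X]) : ev P G ∈ P.F := by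
  rw [ev, coe_eval₂RingHom, eval₂_eq_sum_range]
  exact sum_mem fun i _ => mul_mem (evT_memF P _) (pow_mem (x_memF P 2) _)

lemma evT_injective (h2 : (2 : k) ≠ 0) (P : Pt k K) (hP : P.Gen) :
    Function.Injective (evT P) := by
  obtain ⟨D, hx, _⟩ := edata_of_pt h2 P hP
  refine D.algebraicIndependent_of (al P) ?_
  have h0 : P.x 0 ∈ IntermediateField.adjoin k (Set.range (al P)) :=
    IntermediateField.subset_adjoin k _ ⟨0, rfl⟩
  have h1 : P.x 1 ∈ IntermediateField.adjoin k (Set.range (al P)) :=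
    IntermediateField.subset_adjoin k _ ⟨1, rfl⟩
  have hp : pp P ∈ IntermediateField.adjoin k (Set.range (al P)) :=
    IntermediateField.subset_adjoin k _ ⟨2, rfl⟩
  rw [hx]
  intro j
  fin_cases j
  · exact h0
  · exact h1
  · have e : P.x 2 = P.x 0 * P.x 1 / ((P.x 0 - 3) * pp P) := by
      have a0 := x_ne P 0
      have a1 := x_ne P 1
      have a2 := x_ne P 2
      have a3 := xt_ne P 0
      rw [pp]
      field_simp
    show P.x 2 ∈ _
    rw [e]
    exact div_mem (mul_mem h0 h1) (mul_mem (sub_mem h0 (ofNat_mem _ 3)) hp)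

lemma mem_R_evT (P : Pt k K) (t : MvPolynomial (Fin 3) k) : evT P t ∈ chart k (hZ P) cS := by
  have h1 : evT P t ∈ Algebra.adjoin k (Set.range (al P)) := by
    rw [Algebra.adjoin_range_eq_range_aeval]
    exact ⟨t, rfl⟩
  have h2 : Algebra.adjoin k (Set.range (al P)) ≤ chart k (hZ P) cS := by
    rw [Algebra.adjoin_le_iff]
    rintro _ ⟨i, rfl⟩
    fin_cases i
    · exact fin_x (P := P) (good_cZ none) rfl
    · exact fin_y (P := P) (good_cZ none) rfl
    · exact mem_l (P := P) (good_cZ none) 2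
  exact h2 h1

lemma mem_R_ev (P : Pt k K) (G : (MvPolynomial (Fin 3) k)[X]) : ev P G ∈ chart k (hZ P) cS := by
  rw [ev, coe_eval₂RingHom, eval₂_eq_sum_range]
  exact sum_mem fun i _ => mul_mem (mem_R_evT P _)
    (pow_mem (fin_z (P := P) (good_cZ none) rfl) _)

lemma mem_R_w (P : Pt k K) (i : Fin 3) : P.w i ∈ chart k (hZ P) cS := by
  fin_cases i
  · have := mem_x (P := P) (good_cZ none) 3
    have he : lE (P.x 0) (P.w 0) 3 / lE (P.x 0) (P.w 0) 0 = P.w 0 := div_one _
    show P.w 0 ∈ _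
    rw [← he]
    exact this
  · have := mem_y (P := P) (good_cZ none) 3
    have he : lE (P.x 1) (P.w 1) 3 / lE (P.x 1) (P.w 1) 0 = P.w 1 := div_one _
    show P.w 1 ∈ _
    rw [← he]
    exact this
  · have := mem_z (P := P) (good_cZ none) 3
    have he : lE (P.x 2) (P.w 2) 3 / lE (P.x 2) (P.w 2) 0 = P.w 2 := div_one _
    show P.w 2 ∈ _
    rw [← he]
    exact this

lemma exists_ev_x (P : Pt k K) (i : Fin 3) : ∃ G, ev P G = P.x i := by
  fin_cases i
  · exact ⟨C (MvPolynomial.X 0), by rw [ev_C, evT_0]; rfl⟩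
  · exact ⟨C (MvPolynomial.X 1), by rw [ev_C, evT_1]; rfl⟩
  · exact ⟨X, by rw [ev_X]; rfl⟩

theorem exists_coeff_R (P : Pt k K) (f : K) (hf : f ∈ chart k (hZ P) cS) :
    ∃ c : Finset (Fin 3) → (MvPolynomial (Fin 3) k)[X], ∑ S, ev P (c S) * ∏ i ∈ S, P.w i = f := by
  let _ : Algebra (MvPolynomial (Fin 3) k)[X] K := (ev P).toAlgebra
  have hev : ∀ G, ev P G ∈ Algebra.adjoin (MvPolynomial (Fin 3) k)[X] (Set.range P.w) := fun G =>
    Subalgebra.algebraMap_mem _ G
  have hx : ∀ i, P.x i ∈ Algebra.adjoin (MvPolynomial (Fin 3) k)[X] (Set.range P.w) := by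
    intro i
    obtain ⟨G, hG⟩ := exists_ev_x P i
    rw [← hG]
    exact hev G
  have hp : pp P ∈ Algebra.adjoin (MvPolynomial (Fin 3) k)[X] (Set.range P.w) := by
    have := hev (C (MvPolynomial.X 2))
    rwa [ev_C, evT_2] at this
  have hq : P.x 0 * P.x 1 / P.x 2 ∈
      Algebra.adjoin (MvPolynomial (Fin 3) k)[X] (Set.range P.w) := by
    have := hev (C (Qp k))
    rwa [ev_C, evT_Qp] at this
  have hw : ∀ i, P.w i ∈ Algebra.adjoin (MvPolynomial (Fin 3) k)[X] (Set.range P.w) := fun i =>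
    Algebra.subset_adjoin ⟨i, rfl⟩
  have hlE : ∀ (i : Fin 3) (a : Fin 4), lE (P.x i) (P.w i) a ∈
      Algebra.adjoin (MvPolynomial (Fin 3) k)[X] (Set.range P.w) := by
    intro i a
    fin_cases a
    · exact one_mem _
    · exact hx i
    · exact pow_mem (hx i) 2
    · exact hw i
  have a0 := x_ne P 0
  have a1 := x_ne P 1
  have a2 := x_ne P 2
  have a3 := xt_ne P 0
  have h1 : f ∈ Algebra.adjoin (MvPolynomial (Fin 3) k)[X] (Set.range P.w) := by
    induction hf using Algebra.adjoin_induction with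
    | mem x hx' =>
      obtain ⟨e, rfl⟩ := hx'
      have hd : lxyz (P.x 0) (P.x 1) (P.x 2) e.2.2.2.1 / P.x 2 ∈
          Algebra.adjoin (MvPolynomial (Fin 3) k)[X] (Set.range P.w) := by
        generalize e.2.2.2.1 = d
        fin_cases d
        · exact hq
        · have e1 : P.x 0 * P.x 1 * P.x 2 / P.x 2 = P.x 0 * P.x 1 := by field_simp
          show P.x 0 * P.x 1 * P.x 2 / P.x 2 ∈ _
          rw [e1]
          exact mul_mem (hx 0) (hx 1)
        · have e1 : P.x 1 * P.x 2 / P.x 2 = P.x 1 := by field_simp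
          show P.x 1 * P.x 2 / P.x 2 ∈ _
          rw [e1]
          exact hx 1
        · have e1 : P.x 0 * P.x 2 / P.x 2 = P.x 0 := by field_simp
          show P.x 0 * P.x 2 / P.x 2 ∈ _
          rw [e1]
          exact hx 0
        · have e1 : P.x 2 / P.x 2 = 1 := div_self a2
          show P.x 2 / P.x 2 ∈ _
          rw [e1]
          exact one_mem _
      have he : l4 (P.x 0) (P.x 1) (P.x 2) e.2.2.2.2 / ((P.x 0 - 3) * P.x 2) ∈
          Algebra.adjoin (MvPolynomial (Fin 3) k)[X] (Set.range P.w) := by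
        generalize e.2.2.2.2 = d
        fin_cases d
        · have e1 : (P.x 0 - 3) * P.x 2 / ((P.x 0 - 3) * P.x 2) = 1 := by field_simp
          show (P.x 0 - 3) * P.x 2 / ((P.x 0 - 3) * P.x 2) ∈ _
          rw [e1]
          exact one_mem _
        · have e1 : (P.x 0 - 3) * P.x 1 * P.x 2 / ((P.x 0 - 3) * P.x 2) = P.x 1 := by field_simp
          show (P.x 0 - 3) * P.x 1 * P.x 2 / ((P.x 0 - 3) * P.x 2) ∈ _
          rw [e1]
          exact hx 1
        · exact hp
        · have e1 : P.x 0 * P.x 1 * P.x 2 / ((P.x 0 - 3) * P.x 2) = pp P * P.x 2 := by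
            rw [pp]
            field_simp
          show P.x 0 * P.x 1 * P.x 2 / ((P.x 0 - 3) * P.x 2) ∈ _
          rw [e1]
          exact mul_mem hp (hx 2)
      have e1 : hZ P e / hZ P cS = lE (P.x 0) (P.w 0) e.1 * lE (P.x 1) (P.w 1) e.2.1 *
          lE (P.x 2) (P.w 2) e.2.2.1 * (lxyz (P.x 0) (P.x 1) (P.x 2) e.2.2.2.1 / P.x 2) *
          (l4 (P.x 0) (P.x 1) (P.x 2) e.2.2.2.2 / ((P.x 0 - 3) * P.x 2)) := by
        have e2 : hZ P cS = P.x 2 * ((P.x 0 - 3) * P.x 2) := by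
          show 1 * 1 * 1 * P.x 2 * ((P.x 0 - 3) * P.x 2) = _
          ring
        rw [e2]
        unfold hZ
        field_simp
      show hZ P e / hZ P cS ∈ _
      rw [e1]
      exact mul_mem (mul_mem (mul_mem (mul_mem (hlE 0 _) (hlE 1 _)) (hlE 2 _)) hd) he
    | algebraMap r =>
      have := hev (C (MvPolynomial.C r))
      rw [ev_C] at this
      have e1 : evT P (MvPolynomial.C r) = algebraMap k K r := MvPolynomial.aeval_C _ _
      rwa [e1] at this
    | add x y _ _ hx hy => exact add_mem hx hy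
    | mul x y _ _ hx hy => exact mul_mem hx hy
  obtain ⟨c, hc⟩ := exists_coeff P.w (fun i => by
    obtain ⟨G, hG⟩ := exists_ev_x P i
    refine ⟨G ^ 4 + 1, ?_⟩
    rw [P.sq i]
    show _ = ev P (G ^ 4 + 1)
    rw [map_add, map_pow, map_one, hG]) f h1
  refine ⟨c, ?_⟩
  rw [← hc]
  exact Finset.sum_congr rfl fun S _ => by rw [Algebra.smul_def]; rfl

theorem coeff_eq_zero (h2 : (2 : k) ≠ 0) (P : Pt k K)
    (c : Finset (Fin 3) → (MvPolynomial (Fin 3) k)[X])
    (hc : ∑ S, ev P (c S) * ∏ i ∈ S, P.w i = 0) (S : Finset (Fin 3)) : ev P (c S) = 0 := by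
  have h5 := (Fintype.linearIndependent_iff.mp (P.li h2)) (fun S => ⟨ev P (c S), ev_memF P _⟩) (by
    rw [← hc]
    exact Finset.sum_congr rfl fun S _ => by rw [Algebra.smul_def]; rfl) S
  exact congrArg Subtype.val h5

theorem regU (h2 : (2 : k) ≠ 0) (h3 : (3 : k) ≠ 0) (P : Pt k K) (hP : P.Gen)
    (U : MvPolynomial (Fin 3) k) (hU : U ∣ Xy k) :
    RegMod (chart k (hZ P) cS) (evT P U) (P.x 0 * P.x 1 / P.x 2) (P.x 2) := by
  intro r hr
  rintro ⟨a, ha, b, hb, e⟩
  obtain ⟨cr, hcr⟩ := exists_coeff_R P r hr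
  obtain ⟨ca, hca⟩ := exists_coeff_R P a ha
  obtain ⟨cb, hcb⟩ := exists_coeff_R P b hb
  have h1 : ∀ S, ev P (X * cr S - C U * ca S - C (Qp k) * cb S) = 0 := by
    refine coeff_eq_zero h2 P _ ?_
    have e1 : ∀ S, ev P (X * cr S - C U * ca S - C (Qp k) * cb S) * ∏ i ∈ S, P.w i =
        P.x 2 * (ev P (cr S) * ∏ i ∈ S, P.w i) - evT P U * (ev P (ca S) * ∏ i ∈ S, P.w i) -
        P.x 0 * P.x 1 / P.x 2 * (ev P (cb S) * ∏ i ∈ S, P.w i) := by
      intro S
      rw [map_sub, map_sub, map_mul, map_mul, map_mul, ev_C, ev_C, ev_X, evT_Qp]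
      ring
    simp only [e1]
    rw [Finset.sum_sub_distrib, Finset.sum_sub_distrib, ← Finset.mul_sum, ← Finset.mul_sum,
      ← Finset.mul_sum, hcr, hca, hcb, e]
    ring
  have h4 : ∀ S, ∃ a b : (MvPolynomial (Fin 3) k)[X], a * C U + b * C (Qp k) = cr S := by
    intro S
    have h5 := dvd_of_eval (evT P).toRingHom (evT_injective h2 P hP) (Qp k) (-Xy k) Qp_ne
      (isRelPrime_Qp h3) (P.x 2) (by
        show evT P (Qp k) * P.x 2 + evT P (-Xy k) = 0
        rw [map_neg, evT_Qp, evT_Xy, div_mul_cancel₀ _ (x_ne P 2), add_neg_cancel]) _ (h1 S)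
    rw [← mem_map_pair]
    refine reg_poly _ _ ?_
    have h6 : X * cr S = C U * ca S + C (Qp k) * cb S +
        (X * cr S - C U * ca S - C (Qp k) * cb S) := by ring
    rw [h6]
    have hmU : C U ∈ Ideal.map (C : MvPolynomial (Fin 3) k →+* _) (Ideal.span {U, Qp k}) :=
      Ideal.mem_map_of_mem _ (Ideal.subset_span (Set.mem_insert _ _))
    have hmQ : C (Qp k) ∈ Ideal.map (C : MvPolynomial (Fin 3) k →+* _) (Ideal.span {U, Qp k}) :=
      Ideal.mem_map_of_mem _ (Ideal.subset_span (Set.mem_insert_of_mem _ rfl))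
    refine add_mem (add_mem (Ideal.mul_mem_right _ _ hmU) (Ideal.mul_mem_right _ _ hmQ)) ?_
    refine Ideal.mem_of_dvd _ h5 (add_mem (Ideal.mul_mem_right _ _ hmQ) ?_)
    obtain ⟨V, hV⟩ := hU
    rw [hV, map_neg, map_mul]
    exact neg_mem (Ideal.mul_mem_right _ _ hmU)
  choose a' b' hab using h4
  refine ⟨∑ S, ev P (a' S) * ∏ i ∈ S, P.w i, sum_mem fun S _ => mul_mem (mem_R_ev P _)
    (prod_mem fun i _ => mem_R_w P i), ∑ S, ev P (b' S) * ∏ i ∈ S, P.w i,
    sum_mem fun S _ => mul_mem (mem_R_ev P _) (prod_mem fun i _ => mem_R_w P i), ?_⟩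
  rw [← hcr, Finset.mul_sum, Finset.mul_sum, ← Finset.sum_add_distrib]
  refine Finset.sum_congr rfl fun S _ => ?_
  rw [← hab S, map_add, map_mul, map_mul, ev_C, ev_C, evT_Qp]
  ring

theorem regX (h2 : (2 : k) ≠ 0) (h3 : (3 : k) ≠ 0) (P : Pt k K) (hP : P.Gen) :
    RegMod (chart k (hZ P) cS) (P.x 1) (P.x 0 * P.x 1 / P.x 2) (P.x 2) := by
  have := regU h2 h3 P hP (MvPolynomial.X 1) (Dvd.intro_left _ rfl)
  rwa [evT_1] at this

theorem regY (h2 : (2 : k) ≠ 0) (h3 : (3 : k) ≠ 0) (P : Pt k K) (hP : P.Gen) :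
    RegMod (chart k (hZ P) cS) (P.x 0) (P.x 0 * P.x 1 / P.x 2) (P.x 2) := by
  have := regU h2 h3 P hP (MvPolynomial.X 0) (Dvd.intro _ rfl)
  rwa [evT_0] at this

end BadRed.B4
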