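import Pool.Agent.Lib.MP_55c1e7_ag.B4.Gl
import Pool.Agent.Lib.MP_55c1e7_ag.B4.Bl
import Pool.Agent.Lib.MP_55c1e7_ag.B4.Reg

/-!
# Box B4: the special chart
-/

set_option autoImplicit false

open MP55c1e7.CG Pool.Agent.Lib.MP_55c1e7_ag.CK Pool.Agent.Lib.MP_55c1e7_ag.B4

namespace BadRed.B4

variable {k K : Type} [Field k] [Field K] [Algebra k K]

lemma q_mem (P : Pt k K) : P.x 0 * P.x 1 / P.x 2 ∈ chart k (hZ P) cS := by
  have h := ratio_mem (k := k) (hZ P) cS (0, 0, 0, 0, 0)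
  have x0 := x_ne P 0
  have y0 := x_ne P 1
  have z0 := x_ne P 2
  have h2 := hZ_ne (P := P) good_cS
  have e : hZ P (0, 0, 0, 0, 0) / hZ P cS = P.x 0 * P.x 1 / P.x 2 := by
    have e1 : hZ P (0, 0, 0, 0, 0) * P.x 2 = hZ P cS * (P.x 0 * P.x 1) := by
      show (lE (P.x 0) (P.w 0) 0 * lE (P.x 1) (P.w 1) 0 * lE (P.x 2) (P.w 2) 0 *
        (P.x 0 * P.x 1) * l4 (P.x 0) (P.x 1) (P.x 2) 0) * P.x 2 =
        (lE (P.x 0) (P.w 0) 0 * lE (P.x 1) (P.w 1) 0 * lE (P.x 2) (P.w 2) 0 *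
        (P.x 2) * l4 (P.x 0) (P.x 1) (P.x 2) 0) * (P.x 0 * P.x 1)
      ring
    field_simp
    rw [e1]
    ring
  rwa [e] at h

lemma qx (P : Pt k K) : P.x 0 * P.x 1 / P.x 2 * P.x 2 / P.x 1 = P.x 0 := by
  have y0 := x_ne P 1
  have z0 := x_ne P 2
  field_simp

lemma qy (P : Pt k K) : P.x 0 * P.x 1 / P.x 2 * P.x 2 / P.x 0 = P.x 1 := by
  have y0 := x_ne P 0
  have z0 := x_ne P 2
  field_simp

theorem interX (h2 : (2 : k) ≠ 0) (h3 : (3 : k) ≠ 0) (P : Pt k K) (hP : P.Gen) :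
    (chart k (hZ P) cS ⊔ Algebra.adjoin k {P.x 2 / P.x 1}) ⊓
      (chart k (hZ P) cS ⊔ Algebra.adjoin k {P.x 1 / P.x 2}) ≤ chart k (hZ P) cS :=
  bl_inter (fin_y good_cS rfl) (fin_z good_cS rfl) (x_ne P 1) (x_ne P 2)
    (q := P.x 0 * P.x 1 / P.x 2) (by rw [qx]; exact fin_x good_cS rfl) (regX h2 h3 P hP)

theorem interY (h2 : (2 : k) ≠ 0) (h3 : (3 : k) ≠ 0) (P : Pt k K) (hP : P.Gen) :
    (chart k (hZ P) cS ⊔ Algebra.adjoin k {P.x 0 / P.x 2}) ⊓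
      (chart k (hZ P) cS ⊔ Algebra.adjoin k {P.x 2 / P.x 0}) ≤ chart k (hZ P) cS := by
  rw [inf_comm]
  exact bl_inter (fin_x good_cS rfl) (fin_z good_cS rfl) (x_ne P 0) (x_ne P 2)
    (q := P.x 0 * P.x 1 / P.x 2) (by rw [qy]; exact fin_y good_cS rfl) (regY h2 h3 P hP)

theorem haOne (h2 : (2 : k) ≠ 0) (h3 : (3 : k) ≠ 0) (P : Pt k K) (hP : P.Gen) :
    pw (chart k (hY P) (cS, 1)) 1 (-1) ⊓ pw (chart k (hY P) (cS, 0)) (P.x 0 / P.x 2) (-1) =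
      pw (chart k (hX P) (cS, 0)) (P.x 1) 1 ⊓ pw (chart k (hX P) (cS, 1)) (P.x 2) 1 := by
  have x0 := x_ne P 0
  have y0 := x_ne P 1
  have z0 := x_ne P 2
  have hx : P.x 0 ∈ chart k (hZ P) cS := fin_x good_cS rfl
  have hy : P.x 1 ∈ chart k (hZ P) cS := fin_y good_cS rfl
  have hz : P.x 2 ∈ chart k (hZ P) cS := fin_z good_cS rfl
  ext f
  rw [Submodule.mem_inf, Submodule.mem_inf, mem_pw, mem_pw, mem_pw, mem_pw, chX_false, chX_true,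
    chY_false, chY_true, neg_neg, zpow_one, zpow_one, zpow_neg_one, zpow_neg_one, mul_one]
  rw [bl_mem_one (q := P.x 0 * P.x 1 / P.x 2) hy hz y0 z0 (by rw [qx]; exact hx) (regX h2 h3 P hP)]
  have h1 := bl_mem_neg (q := P.x 0 * P.x 1 / P.x 2) hx hz (q_mem P) x0 z0
    (by rw [qy]; exact hy) (regY h2 h3 P hP) (f / P.x 2)
  have e1 : f / P.x 2 * P.x 2 = f := by field_simp
  have e2 : f / P.x 2 * P.x 0 = f * (P.x 0 / P.x 2) := by field_simp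
  rw [e1, e2] at h1
  rw [and_comm, h1]
  constructor
  · rintro ⟨a, ha, b, hb, e⟩
    refine ⟨b, hb, a, ha, ?_⟩
    rw [← e1, e]
    field_simp
    ring
  · rintro ⟨a, ha, b, hb, e⟩
    refine ⟨b, hb, a, ha, ?_⟩
    rw [e]
    field_simp
    ring

theorem haNeg (h2 : (2 : k) ≠ 0) (h3 : (3 : k) ≠ 0) (P : Pt k K) (hP : P.Gen) :
    pw (chart k (hY P) (cS, 1)) 1 1 ⊓ pw (chart k (hY P) (cS, 0)) (P.x 0 / P.x 2) 1 =
      pw (chart k (hX P) (cS, 0)) (P.x 1) (-1) ⊓ pw (chart k (hX P) (cS, 1)) (P.x 2) (-1) := by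
  have x0 := x_ne P 0
  have y0 := x_ne P 1
  have z0 := x_ne P 2
  have hx : P.x 0 ∈ chart k (hZ P) cS := fin_x good_cS rfl
  have hy : P.x 1 ∈ chart k (hZ P) cS := fin_y good_cS rfl
  have hz : P.x 2 ∈ chart k (hZ P) cS := fin_z good_cS rfl
  ext f
  rw [Submodule.mem_inf, Submodule.mem_inf, mem_pw, mem_pw, mem_pw, mem_pw, chX_false, chX_true,
    chY_false, chY_true, neg_neg, zpow_one, zpow_one, zpow_neg_one, zpow_neg_one, inv_one, mul_one]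
  rw [bl_mem_neg (q := P.x 0 * P.x 1 / P.x 2) hy hz (q_mem P) y0 z0 (by rw [qx]; exact hx)
    (regX h2 h3 P hP)]
  have h1 := bl_mem_one (q := P.x 0 * P.x 1 / P.x 2) hx hz x0 z0
    (by rw [qy]; exact hy) (regY h2 h3 P hP) (f * P.x 2)
  have e1 : f * P.x 2 * (P.x 2)⁻¹ = f := by field_simp
  have e2 : f * P.x 2 * (P.x 0)⁻¹ = f * (P.x 0 / P.x 2)⁻¹ := by field_simp
  rw [e1, e2] at h1
  rw [and_comm, h1]
  constructor
  · rintro ⟨a, ha, b, hb, e⟩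
    refine ⟨b, hb, a, ha, ?_⟩
    rw [← e1, e]
    field_simp
    ring
  · rintro ⟨a, ha, b, hb, e⟩
    refine ⟨b, hb, a, ha, ?_⟩
    rw [e]
    field_simp
    ring

end BadRed.B4
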