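import Pool.Agent.Lib.MP_55c1e7_ag.B4.Gl
import Pool.Agent.Lib.MP_55c1e7_ag.B4.Spec
import Pool.Agent.Lib.MP_55c1e7_ag.B4.Cov
import Pool.Agent.Lib.MP_55c1e7_ag.B4.Cdef

/-!
# Box B4: assembly
-/

set_option autoImplicit false

open MP55c1e7.CG Pool.Agent.Lib.MP_55c1e7_ag.CK

namespace BadRed.B4

variable {k K : Type} [Field k] [Field K] [Algebra k K]

/-- flop data of `X` -/
noncomputable def DX (h2 : (2 : k) ≠ 0) (h3 : (3 : k) ≠ 0) (P : Pt k K) (hP : P.Gen) : FlopData k K (Fin 13) where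
  R o := chart k (hZ P) (cZ o)
  sig o := hZ P (cZ o)
  g i := lyz (P.x 1) (P.x 2) (jX i)
  g0 := P.x 1
  g1 := P.x 2
  fg o := chart_fg _ _
  sig_ne o := hZ_ne (good_cZ o)
  g_ne i := lyz_ne _ _ (x_ne P 1) (x_ne P 2) _
  g0_ne := x_ne P 1
  g1_ne := x_ne P 2
  sig_mem i j := ratio_mem (hZ P) _ _
  loc i j f hf := chart_loc (hZ P) _ _ (hZ_ne (good_cZ j)) f hf
  inter := interX h2 h3 P hP
  m := 0
  gl l l' := by
    rw [pow_zero, pow_zero, mul_one, mul_one]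
    have h1 := genX P l
    have h2 := genX P l'
    rw [h1, h2]
    have h := ratX P l' (IX l).2
    rcases l' with i | b
    · have e : chart k (hX P) (IX (Sum.inl i)) = chart k (hZ P) (cI i) := chX_inl P i
      rw [e] at h
      exact h
    · cases b
      · have e := chX_false P
        have h' : _ ∈ chart k (hX P) (cS, 0) := h
        rw [e] at h'
        exact h'
      · have e := chX_true P
        have h' : _ ∈ chart k (hX P) (cS, 1) := h
        rw [e] at h'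
        exact h'
  part i := partX P i

lemma DX_ch (h2 : (2 : k) ≠ 0) (h3 : (3 : k) ≠ 0) (P : Pt k K) (hP : P.Gen) (l : Fin 13 ⊕ Bool) :
    (DX h2 h3 P hP).ch l = chart k (hX P) (IX l) := by
  rcases l with i | b
  · exact (chX_inl P i).symm
  · cases b
    · exact (chX_false P).symm
    · exact (chX_true P).symm

/-- flop data of `Y` -/
noncomputable def DY (h2 : (2 : k) ≠ 0) (h3 : (3 : k) ≠ 0) (P : Pt k K) (hP : P.Gen) : FlopData k K (Fin 13) where
  R o := chart k (hZ P) (cZ o)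
  sig o := hZ P (cZ o)
  g i := (lyz (P.x 1) (P.x 2) (jX i))⁻¹
  g0 := 1
  g1 := P.x 0 / P.x 2
  fg o := chart_fg _ _
  sig_ne o := hZ_ne (good_cZ o)
  g_ne i := inv_ne_zero (lyz_ne _ _ (x_ne P 1) (x_ne P 2) _)
  g0_ne := one_ne_zero
  g1_ne := div_ne_zero (x_ne P 0) (x_ne P 2)
  sig_mem i j := ratio_mem (hZ P) _ _
  loc i j f hf := chart_loc (hZ P) _ _ (hZ_ne (good_cZ j)) f hf
  inter := by
    rw [div_one, one_div_div]
    exact interY h2 h3 P hP
  m := 1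
  gl l l' := by
    rw [gsig P l, gsig P l']
    have h := glY P l l'
    rcases l' with i | b
    · have e : chart k (hY P) (IY (Sum.inl i)) = chart k (hZ P) (cI i) := chY_inl P i
      rw [e] at h
      exact h
    · cases b
      · have e := chY_false P
        have h' : _ ∈ chart k (hY P) (cS, 1) := h
        rw [e] at h'
        show _ ∈ chart k (hZ P) cS ⊔ Algebra.adjoin k {P.x 0 / P.x 2 / 1}
        rw [div_one]
        exact h'
      · have e := chY_true P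
        have h' : _ ∈ chart k (hY P) (cS, 0) := h
        rw [e] at h'
        show _ ∈ chart k (hZ P) cS ⊔ Algebra.adjoin k {1 / (P.x 0 / P.x 2)}
        rw [one_div_div]
        exact h'
  part i := partY P i

lemma DY_ch (h2 : (2 : k) ≠ 0) (h3 : (3 : k) ≠ 0) (P : Pt k K) (hP : P.Gen) (l : Fin 13 ⊕ Bool) :
    (DY h2 h3 P hP).ch l = chart k (hY P) (IY l) := by
  rcases l with i | b
  · exact (chY_inl P i).symm
  · cases b
    · have e : chart k (hY P) (IY (Sum.inr false)) =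
        chart k (hZ P) cS ⊔ Algebra.adjoin k {P.x 0 / P.x 2} := chY_false P
      rw [e]
      show chart k (hZ P) cS ⊔ Algebra.adjoin k {P.x 0 / P.x 2 / 1} = _
      rw [div_one]
    · have e : chart k (hY P) (IY (Sum.inr true)) =
        chart k (hZ P) cS ⊔ Algebra.adjoin k {P.x 2 / P.x 0} := chY_true P
      rw [e]
      show chart k (hZ P) cS ⊔ Algebra.adjoin k {1 / (P.x 0 / P.x 2)} = _
      rw [one_div_div]

lemma IX_good (l : Fin 13 ⊕ Bool) : Good (IX l).1 := by rw [IX_fst]; exact good_cZ _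

lemma IY_good (l : Fin 13 ⊕ Bool) : Good (IY l).1 := by rw [IY_fst]; exact good_cZ _

lemma hX_IX_ne (P : Pt k K) (l : Fin 13 ⊕ Bool) : hX P (IX l) ≠ 0 :=
  mul_ne_zero (hZ_ne (IX_good l)) (lyz_ne _ _ (x_ne P 1) (x_ne P 2) _)

lemma hY_IY_ne (P : Pt k K) (l : Fin 13 ⊕ Bool) : hY P (IY l) ≠ 0 :=
  mul_ne_zero (hZ_ne (IY_good l)) (lyz_ne _ _ (x_ne P 0) (x_ne P 2) _)

end BadRed.B4

namespace BadRed

open B4

theorem boxB4 {k K : Type} [Field k] [Field K] [Algebra k K] (h2 : (2 : k) ≠ 0) (h3 : (3 : k) ≠ 0)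
    (P : Pt k K) (hP : P.Gen) :
    ∃ (D D' : FlopData k K (Fin 13)) (I I' : Fin 13 ⊕ Bool → Idx),
      D'.R = D.R ∧ D'.sig = D.sig ∧ (∀ i, D'.g i = (D.g i)⁻¹) ∧ D'.Ha (-1) = D.Ha 1 ∧
      D'.Ha 1 = D.Ha (-1) ∧ (∀ l, D.ch l = chart k (hX P) (I l)) ∧
      (∀ l, D'.ch l = chart k (hY P) (I' l)) ∧ Covers (R := k) (hX P) I ∧
      Covers (R := k) (hY P) I' := by
  refine ⟨DX h2 h3 P hP, DY h2 h3 P hP, IX, IY, rfl, rfl, fun _ => rfl, ?_, ?_, DX_ch h2 h3 P hP,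
    DY_ch h2 h3 P hP, ⟨hX_IX_ne P, coverX h3 P hP⟩, ⟨hY_IY_ne P, coverY h3 P hP⟩⟩
  · show pw ((DY h2 h3 P hP).ch (Sum.inr false)) 1 (-1) ⊓
      pw ((DY h2 h3 P hP).ch (Sum.inr true)) (P.x 0 / P.x 2) (-1) =
      pw ((DX h2 h3 P hP).ch (Sum.inr false)) (P.x 1) 1 ⊓
      pw ((DX h2 h3 P hP).ch (Sum.inr true)) (P.x 2) 1
    rw [DX_ch, DX_ch, DY_ch, DY_ch]
    exact haOne h2 h3 P hP
  · show pw ((DY h2 h3 P hP).ch (Sum.inr false)) 1 1 ⊓
      pw ((DY h2 h3 P hP).ch (Sum.inr true)) (P.x 0 / P.x 2) 1 =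
      pw ((DX h2 h3 P hP).ch (Sum.inr false)) (P.x 1) (-1) ⊓
      pw ((DX h2 h3 P hP).ch (Sum.inr true)) (P.x 2) (-1)
    rw [DX_ch, DX_ch, DY_ch, DY_ch]
    exact haNeg h2 h3 P hP

end BadRed
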