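import Pool.Agent.Lib.MP_55c1e7_ag.Cech
import Pool.Agent.Lib.MP_55c1e7_ag.CG.Charted
import Pool.Agent.Lib.MP_55c1e7_ag.CK.Defs

/-!
# Box B4: the explicit tables of charts of `X`, `Y` and `Z`
-/

set_option autoImplicit false

open MP55c1e7.CG Pool.Agent.Lib.MP_55c1e7_ag.CK

namespace BadRed.B4

/-- Index type of the linear system of `Z`. -/
abbrev Idz : Type := Fin 4 × Fin 4 × Fin 4 × Fin 5 × Fin 4

/-- the thirteen common charts -/
def cI : Fin 13 → Idz := ![(0, 0, 0, 0, 2), (1, 0, 0, 4, 2), (0, 0, 2, 4, 0), (0, 0, 2, 4, 3),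
  (0, 2, 0, 0, 2), (0, 2, 0, 2, 1), (0, 2, 2, 2, 1), (0, 2, 2, 2, 3), (2, 0, 0, 0, 2),
  (2, 0, 0, 3, 0), (2, 0, 2, 3, 0), (2, 2, 0, 0, 2), (2, 2, 2, 1, 3)]

/-- the special chart -/
def cS : Idz := (0, 0, 0, 4, 0)

/-- all charts of `Z` -/
def cZ : Option (Fin 13) → Idz
  | none => cS
  | some i => cI i

/-- the index of the list `y, z, yz` -/
def jX : Fin 13 → Fin 3 := ![0, 1, 1, 1, 0, 0, 2, 2, 0, 1, 1, 0, 2]

/-- the index of the list `x, z, xz` -/
def jY : Fin 13 → Fin 3 := ![0, 0, 1, 1, 0, 1, 1, 1, 0, 0, 2, 0, 2]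

/-- charts of `X` -/
def IX : Fin 13 ⊕ Bool → Idz × Fin 3
  | Sum.inl i => (cI i, jX i)
  | Sum.inr false => (cS, 0)
  | Sum.inr true => (cS, 1)

/-- charts of `Y` -/
def IY : Fin 13 ⊕ Bool → Idz × Fin 3
  | Sum.inl i => (cI i, jY i)
  | Sum.inr false => (cS, 1)
  | Sum.inr true => (cS, 0)

section gen

variable {k K : Type} [Field k] [Field K] [Algebra k K]

lemma ratio_mem {ι : Type} (h : ι → K) (i j : ι) : h j / h i ∈ chart k h i :=
  Algebra.subset_adjoin ⟨j, rfl⟩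

lemma chart_fg {ι : Type} [Finite ι] (h : ι → K) (i : ι) : (chart k h i).FG := by
  rw [Subalgebra.fg_def]
  exact ⟨_, Set.finite_range _, rfl⟩

lemma chart_loc {ι : Type} (h : ι → K) (i j : ι) (hj : h j ≠ 0) (f : K)
    (hf : f ∈ chart k h j) : ∃ n : ℕ, (h j / h i) ^ n * f ∈ chart k h i := by
  have up : ∀ (n : ℕ) (g : K) (d : ℕ), (h j / h i) ^ n * g ∈ chart k h i →
      (h j / h i) ^ (n + d) * g ∈ chart k h i := by
    intro n g d hg
    have : (h j / h i) ^ (n + d) * g = (h j / h i) ^ d * ((h j / h i) ^ n * g) := by ring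
    rw [this]
    exact (chart k h i).mul_mem ((chart k h i).pow_mem (ratio_mem h i j) d) hg
  induction hf using Algebra.adjoin_induction with
  | mem x hx =>
    obtain ⟨l, rfl⟩ := hx
    refine ⟨1, ?_⟩
    have : (h j / h i) ^ 1 * (h l / h j) = h l / h i := by
      field_simp
    show (h j / h i) ^ 1 * (h l / h j) ∈ _
    rw [this]
    exact ratio_mem h i l
  | algebraMap r => exact ⟨0, by rw [pow_zero, one_mul]; exact (chart k h i).algebraMap_mem r⟩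
  | add x y _ _ hx hy =>
    obtain ⟨n, hn⟩ := hx
    obtain ⟨m, hm⟩ := hy
    refine ⟨n + m, ?_⟩
    rw [mul_add]
    refine (chart k h i).add_mem (up n x m hn) ?_
    rw [add_comm n m]
    exact up m y n hm
  | mul x y _ _ hx hy =>
    obtain ⟨n, hn⟩ := hx
    obtain ⟨m, hm⟩ := hy
    refine ⟨n + m, ?_⟩
    have : (h j / h i) ^ (n + m) * (x * y) = ((h j / h i) ^ n * x) * ((h j / h i) ^ m * y) := by
      ring
    rw [this]
    exact (chart k h i).mul_mem hn hm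

/-- chart rings of product lists -/
lemma chart_mul {α β : Type} (h : α → K) (m : β → K) (hm : α × β → K)
    (hhm : ∀ e, hm e = h e.1 * m e.2) (i : α) (j : β) (hi : h i ≠ 0) (hj : m j ≠ 0) :
    chart k hm (i, j) = chart k h i ⊔ Algebra.adjoin k (Set.range fun l => m l / m j) := by
  apply le_antisymm
  · refine Algebra.adjoin_le ?_
    rintro _ ⟨⟨a, b⟩, rfl⟩
    show hm (a, b) / hm (i, j) ∈ _
    have : hm (a, b) / hm (i, j) = (h a / h i) * (m b / m j) := by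
      rw [hhm, hhm]; exact mul_div_mul_comm _ _ _ _
    rw [this]
    refine mul_mem ?_ ?_
    · exact (le_sup_left : chart k h i ≤ _) (ratio_mem h i a)
    · exact (le_sup_right : Algebra.adjoin k (Set.range fun l => m l / m j) ≤ _)
        (Algebra.subset_adjoin ⟨b, rfl⟩)
  · refine sup_le ?_ ?_
    · refine Algebra.adjoin_le ?_
      rintro _ ⟨a, rfl⟩
      have : h a / h i = hm (a, j) / hm (i, j) := by
        rw [hhm, hhm]
        show _ = h a * m j / (h i * m j)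
        rw [mul_div_mul_right _ _ hj]
      show h a / h i ∈ chart k hm (i, j)
      rw [this]
      exact ratio_mem hm _ _
    · refine Algebra.adjoin_le ?_
      rintro _ ⟨b, rfl⟩
      have : m b / m j = hm (i, b) / hm (i, j) := by
        rw [hhm, hhm]
        show _ = h i * m b / (h i * m j)
        rw [mul_div_mul_left _ _ hi]
      show m b / m j ∈ chart k hm (i, j)
      rw [this]
      exact ratio_mem hm _ _

lemma chart_mul_of_mem {α β : Type} (h : α → K) (m : β → K) (hm : α × β → K)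
    (hhm : ∀ e, hm e = h e.1 * m e.2) (i : α) (j : β) (hi : h i ≠ 0) (hj : m j ≠ 0)
    (hmem : ∀ l, m l / m j ∈ chart k h i) :
    chart k hm (i, j) = chart k h i := by
  rw [chart_mul h m hm hhm i j hi hj, sup_eq_left]
  refine Algebra.adjoin_le ?_
  rintro _ ⟨b, rfl⟩
  exact hmem b

end gen

section pt

variable {k K : Type} [Field k] [Field K] [Algebra k K] (P : Pt k K)

lemma x_ne (i : Fin 3) : P.x i ≠ 0 := P.ind.ne_zero i

lemma xt_ne (i : Fin 3) : P.x i - 3 ≠ 0 := by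
  intro h
  have ht : Transcendental k (P.x i) := P.ind.transcendental i
  apply ht
  have : P.x i = algebraMap k K 3 := by rw [map_ofNat]; exact sub_eq_zero.mp h
  rw [this]
  exact isAlgebraic_algebraMap _

lemma lE_ne (x w : K) (hx : x ≠ 0) (a : Fin 4) (ha : a ≠ 3) : lE x w a ≠ 0 := by
  fin_cases a
  · exact one_ne_zero
  · exact hx
  · exact pow_ne_zero 2 hx
  · exact absurd rfl ha

lemma lyz_ne (y z : K) (hy : y ≠ 0) (hz : z ≠ 0) (j : Fin 3) : lyz y z j ≠ 0 := by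
  fin_cases j
  · exact hy
  · exact hz
  · exact mul_ne_zero hy hz

lemma lxyz_ne (d : Fin 5) : lxyz (P.x 0) (P.x 1) (P.x 2) d ≠ 0 := by
  have h0 := x_ne P 0
  have h1 := x_ne P 1
  have h2 := x_ne P 2
  fin_cases d
  · exact mul_ne_zero h0 h1
  · exact mul_ne_zero (mul_ne_zero h0 h1) h2
  · exact mul_ne_zero h1 h2
  · exact mul_ne_zero h0 h2
  · exact h2

lemma l4_ne' (e : Fin 4) : l4 (P.x 0) (P.x 1) (P.x 2) e ≠ 0 := by
  have h0 := x_ne P 0
  have h1 := x_ne P 1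
  have h2 := x_ne P 2
  have h3 := xt_ne P 0
  fin_cases e
  · exact mul_ne_zero h3 h2
  · exact mul_ne_zero (mul_ne_zero h3 h1) h2
  · exact mul_ne_zero h0 h1
  · exact mul_ne_zero (mul_ne_zero h0 h1) h2

/-- the elliptic indices of the chart are not `3` -/
def Good (c : Idz) : Prop := c.1 ≠ 3 ∧ c.2.1 ≠ 3 ∧ c.2.2.1 ≠ 3

instance (c : Idz) : Decidable (Good c) := by unfold Good; infer_instance

lemma good_cZ (o : Option (Fin 13)) : Good (cZ o) := by
  revert o; decide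

variable {P}

lemma hZ_ne {c : Idz} (hc : Good c) : hZ P c ≠ 0 := by
  have h0 := x_ne P 0
  have h1 := x_ne P 1
  have h2 := x_ne P 2
  exact mul_ne_zero (mul_ne_zero (mul_ne_zero (mul_ne_zero (lE_ne _ _ h0 _ hc.1)
    (lE_ne _ _ h1 _ hc.2.1)) (lE_ne _ _ h2 _ hc.2.2)) (lxyz_ne P _)) (l4_ne' P _)

lemma mem_x {c : Idz} (hc : Good c) (a : Fin 4) :
    lE (P.x 0) (P.w 0) a / lE (P.x 0) (P.w 0) c.1 ∈ chart k (hZ P) c := by
  have h0 := x_ne P 0
  have h1 := x_ne P 1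
  have h2 := x_ne P 2
  have e1 := lE_ne _ (P.w 0) h0 _ hc.1
  have e2 := lE_ne _ (P.w 1) h1 _ hc.2.1
  have e3 := lE_ne _ (P.w 2) h2 _ hc.2.2
  have e4 := lxyz_ne P c.2.2.2.1
  have e5 := l4_ne' P c.2.2.2.2
  have := ratio_mem (k := k) (hZ P) c (a, c.2)
  have he : hZ P (a, c.2) / hZ P c = lE (P.x 0) (P.w 0) a / lE (P.x 0) (P.w 0) c.1 := by
    unfold hZ
    field_simp
  rwa [he] at this

lemma mem_y {c : Idz} (hc : Good c) (a : Fin 4) :
    lE (P.x 1) (P.w 1) a / lE (P.x 1) (P.w 1) c.2.1 ∈ chart k (hZ P) c := by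
  have h0 := x_ne P 0
  have h1 := x_ne P 1
  have h2 := x_ne P 2
  have e1 := lE_ne _ (P.w 0) h0 _ hc.1
  have e2 := lE_ne _ (P.w 1) h1 _ hc.2.1
  have e3 := lE_ne _ (P.w 2) h2 _ hc.2.2
  have e4 := lxyz_ne P c.2.2.2.1
  have e5 := l4_ne' P c.2.2.2.2
  have := ratio_mem (k := k) (hZ P) c (c.1, a, c.2.2)
  have he : hZ P (c.1, a, c.2.2) / hZ P c = lE (P.x 1) (P.w 1) a / lE (P.x 1) (P.w 1) c.2.1 := by
    unfold hZ
    field_simp
  rwa [he] at this

lemma mem_z {c : Idz} (hc : Good c) (a : Fin 4) :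
    lE (P.x 2) (P.w 2) a / lE (P.x 2) (P.w 2) c.2.2.1 ∈ chart k (hZ P) c := by
  have h0 := x_ne P 0
  have h1 := x_ne P 1
  have h2 := x_ne P 2
  have e1 := lE_ne _ (P.w 0) h0 _ hc.1
  have e2 := lE_ne _ (P.w 1) h1 _ hc.2.1
  have e3 := lE_ne _ (P.w 2) h2 _ hc.2.2
  have e4 := lxyz_ne P c.2.2.2.1
  have e5 := l4_ne' P c.2.2.2.2
  have := ratio_mem (k := k) (hZ P) c (c.1, c.2.1, a, c.2.2.2)
  have he : hZ P (c.1, c.2.1, a, c.2.2.2) / hZ P c =
      lE (P.x 2) (P.w 2) a / lE (P.x 2) (P.w 2) c.2.2.1 := by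
    unfold hZ
    field_simp
  rwa [he] at this

lemma mem_t {c : Idz} (hc : Good c) (a : Fin 5) :
    lxyz (P.x 0) (P.x 1) (P.x 2) a / lxyz (P.x 0) (P.x 1) (P.x 2) c.2.2.2.1 ∈
      chart k (hZ P) c := by
  have h0 := x_ne P 0
  have h1 := x_ne P 1
  have h2 := x_ne P 2
  have e1 := lE_ne _ (P.w 0) h0 _ hc.1
  have e2 := lE_ne _ (P.w 1) h1 _ hc.2.1
  have e3 := lE_ne _ (P.w 2) h2 _ hc.2.2
  have e4 := lxyz_ne P c.2.2.2.1
  have e5 := l4_ne' P c.2.2.2.2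
  have := ratio_mem (k := k) (hZ P) c (c.1, c.2.1, c.2.2.1, a, c.2.2.2.2)
  have he : hZ P (c.1, c.2.1, c.2.2.1, a, c.2.2.2.2) / hZ P c =
      lxyz (P.x 0) (P.x 1) (P.x 2) a / lxyz (P.x 0) (P.x 1) (P.x 2) c.2.2.2.1 := by
    unfold hZ
    field_simp
  rwa [he] at this

lemma mem_l {c : Idz} (hc : Good c) (a : Fin 4) :
    l4 (P.x 0) (P.x 1) (P.x 2) a / l4 (P.x 0) (P.x 1) (P.x 2) c.2.2.2.2 ∈
      chart k (hZ P) c := by
  have h0 := x_ne P 0
  have h1 := x_ne P 1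
  have h2 := x_ne P 2
  have e1 := lE_ne _ (P.w 0) h0 _ hc.1
  have e2 := lE_ne _ (P.w 1) h1 _ hc.2.1
  have e3 := lE_ne _ (P.w 2) h2 _ hc.2.2
  have e4 := lxyz_ne P c.2.2.2.1
  have e5 := l4_ne' P c.2.2.2.2
  have := ratio_mem (k := k) (hZ P) c (c.1, c.2.1, c.2.2.1, c.2.2.2.1, a)
  have he : hZ P (c.1, c.2.1, c.2.2.1, c.2.2.2.1, a) / hZ P c =
      l4 (P.x 0) (P.x 1) (P.x 2) a / l4 (P.x 0) (P.x 1) (P.x 2) c.2.2.2.2 := by
    unfold hZ
    field_simp
  rwa [he] at this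

end pt

end BadRed.B4
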